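import Pool.Agent.Lib.EMU.C.GrpL
import Pool.Agent.Lib.EMU.B.Defs

/-!
# MP_9aab3b_gt, part C: the final counting argument, abstract setting (definitions)

`IsCore`: the group `Gp` acts on the real space `X` (through `Q`) by linear isometries, and on the complex spaces `F` and `A`. Over an
open set `O` there are an equivariant bundle `PF` of rank `K₁` with an equivariant section `sF`, three equivariant line bundles `PL i` on
which the centre acts by the characters `χ_i`, and an equivariant line bundle `PC`, the cube of `PL 0` (through the equivariant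
map `cb : A → A`). `U` is an invariant open set with compact closure in `O`, without zeros of `sF` on its frontier.

`Zs v l` is the set of the zeros `x ∈ closure U` of `sF` fixed by `lift v` such that `lift v` acts on the fibre of `PL i` at `x` by `ζ ^ (l i)`.
-/

set_option autoImplicit false

open Set Metric Topology

namespace EMU

variable {X F A : Type*} [NormedAddCommGroup X] [NormedSpace ℝ X]
  [NormedAddCommGroup F] [NormedSpace ℂ F] [NormedAddCommGroup A] [NormedSpace ℂ A]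

/-- the abstract setting -/
structure IsCore (O U : Set X) (ρ : Gp →* (X ≃ₗᵢ[ℝ] X)) (τF : Gp →* (F ≃L[ℂ] F))
    (τA : Gp →* (A ≃L[ℂ] A)) (PF : X → F →L[ℂ] F) (sF : X → F) (PL : Fin 3 → X → A →L[ℂ] A)
    (PC : X → A →L[ℂ] A) (cb : A → A) (K₁ : ℕ) : Prop where
  openO : IsOpen O
  openU : IsOpen U
  cptU : IsCompact (closure U)
  clU : closure U ⊆ O
  invU : ∀ g, ∀ x ∈ U, ρ g x ∈ U
  ρN : ∀ n, ρ (cen n) = 1
  bF : IsBun O PF K₁
  bL : ∀ i, IsBun O (PL i) 1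
  bC : IsBun O PC 1
  eF : IsEqBun O PF ρ τF
  eL : ∀ i, IsEqBun O (PL i) ρ τA
  eC : IsEqBun O PC ρ τA
  NF : ∀ x ∈ O, ∀ v, PF x v = v → ∀ n, τF (cen n) v = v
  NL : ∀ i, ∀ x ∈ O, ∀ v, PL i x v = v → ∀ n : Q3, τA (cen n) v = zt ^ (n i).val • v
  cube : IsCube O (PL 0) PC cb
  cubeE : ∀ g v, cb (τA g v) = τA g (cb v)
  sec : IsSec O PF sF
  secE : IsEqSec O ρ τF sF
  ne : ∀ x ∈ frontier U, sF x ≠ 0

/-- zeros of `sF` fixed by `lift v` with label `l` -/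
def Zs (U : Set X) (ρ : Gp →* (X ≃ₗᵢ[ℝ] X)) (τA : Gp →* (A ≃L[ℂ] A)) (sF : X → F)
    (PL : Fin 3 → X → A →L[ℂ] A) (v l : Q3) : Set X :=
  {x | x ∈ closure U ∧ sF x = 0 ∧ ρ (lift v) x = x ∧
    ∀ i a, PL i x a = a → τA (lift v) a = zt ^ (l i).val • a}

/-- the labels `(v, l)` which occur -/
def Lab (U : Set X) (ρ : Gp →* (X ≃ₗᵢ[ℝ] X)) (τA : Gp →* (A ≃L[ℂ] A)) (sF : X → F)
    (PL : Fin 3 → X → A →L[ℂ] A) : Set (Q3 × Q3) :=
  {a | IsRep a.1 ∧ (Zs U ρ τA sF PL a.1 a.2).Nonempty}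

/-- distance to the set of zeros with label `a` -/
noncomputable def dZ (U : Set X) (ρ : Gp →* (X ≃ₗᵢ[ℝ] X)) (τA : Gp →* (A ≃L[ℂ] A)) (sF : X → F)
    (PL : Fin 3 → X → A →L[ℂ] A) (a : Q3 × Q3) (x : X) : ℝ :=
  infDist x (Zs U ρ τA sF PL a.1 a.2)

/-- the closed `δ`-neighbourhoods of the `Zs` are contained in `U` and disjoint -/
structure IsDelta (U : Set X) (ρ : Gp →* (X ≃ₗᵢ[ℝ] X)) (τA : Gp →* (A ≃L[ℂ] A)) (sF : X → F)
    (PL : Fin 3 → X → A →L[ℂ] A) (δ : ℝ) : Prop where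
  pos : 0 < δ
  sub : ∀ a ∈ Lab U ρ τA sF PL, ∀ x, dZ U ρ τA sF PL a x ≤ δ → x ∈ U
  dis : ∀ a ∈ Lab U ρ τA sF PL, ∀ b ∈ Lab U ρ τA sF PL, ∀ x, dZ U ρ τA sF PL a x ≤ δ →
    dZ U ρ τA sF PL b x ≤ δ → a = b

/-- a `Q`-equivariant section `(f, k)` close to `(sF, 0)` which is a cube near the spheres `dZ a = r` and has no zero there -/
structure IsGlued (O U : Set X) (ρ : Gp →* (X ≃ₗᵢ[ℝ] X)) (τF : Gp →* (F ≃L[ℂ] F))
    (τA : Gp →* (A ≃L[ℂ] A)) (PF : X → F →L[ℂ] F) (sF : X → F) (PL : Fin 3 → X → A →L[ℂ] A)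
    (PC : X → A →L[ℂ] A) (cb : A → A) (δ r ε : ℝ) (f : X → F) (k : X → A) : Prop where
  r1 : δ / 3 < r
  r2 : r < 2 * δ / 3
  sec : IsSec O (dsum PF PC) (fun x => (f x, k x))
  eqv : ∀ q, ∀ x ∈ O, f (ρ (lift q) x) = τF (lift q) (f x) ∧ k (ρ (lift q) x) = τA (lift q) (k x)
  close : ∀ x ∈ O, ‖f x - sF x‖ ≤ ε
  shell : ∀ a ∈ Lab U ρ τA sF PL, ∃ (f' : X → F) (h' : X → A),
    IsSec O (dsum PF (PL 0)) (fun x => (f' x, h' x)) ∧
      ∀ x, dZ U ρ τA sF PL a x = r → f x = f' x ∧ k x = cb (h' x) ∧ (f' x, h' x) ≠ 0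

end EMU
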