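import Pool.Agent.Lib.EMU.C.Line

/-!
# MP_9aab3b_gt, module C.Delta: disjoint neighbourhoods of the sets of singular zeros, and freeness away from them

PROOF. `exists_delta`: for `a ∈ Lab` (a finite set of labels: `Q3 × Q3` is finite) `Zs a` is compact, nonempty, contained in the open set `U`
(`Zs_compact`, `Zs_sub`), and they are pairwise disjoint (`Zs_disjoint`). So there is `δ > 0` with the closed `δ`-neighbourhoods in `U`
(`IsCompact.exists_cthickening_subset_open`) and pairwise disjoint (distance of disjoint compact sets positive: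
`Disjoint.exists_cthickenings`). For a nonempty set `infDist x Z ≤ δ ↔ x ∈ cthickening δ Z`.
`dZ_move`: `ρ (lift q)` is an isometry mapping `Zs v l` onto `Zs v (l + om v q)` (`Zs_image`), and `infDist` is invariant (`Metric.infDist_image`).
`exists_free`: suppose not; then (finitely many `q`) there are `q ≠ 0` and `x_n ∈ closure U` with `ρ (lift q) x_n = x_n`, `‖sF x_n‖ → 0`,
`δ / 3 ≤ dZ a x_n` for all `a ∈ Lab`. A limit point `x ∈ closure U` is fixed by `lift q`, `sF x = 0`, so `x ∈ Zs a` for some `a ∈ Lab` (`Zs_cover`), `dZ a x = 0`,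
but `δ / 3 ≤ dZ a x` by continuity of `infDist`. Contradiction. (Or: the set of `x ∈ closure U` with `∀ a ∈ Lab, δ/3 ≤ dZ a x` and
`∃ q ≠ 0, ρ (lift q) x = x` is compact and `sF ≠ 0` on it, so `‖sF‖` has a positive minimum.)
-/

set_option autoImplicit false

open Set Metric Topology

namespace EMU

variable {X F A : Type*} [NormedAddCommGroup X] [NormedSpace ℝ X] [FiniteDimensional ℝ X]
  [NormedAddCommGroup F] [NormedSpace ℂ F] [NormedAddCommGroup A] [NormedSpace ℂ A]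
  {O U : Set X} {ρ : Gp →* (X ≃ₗᵢ[ℝ] X)} {τF : Gp →* (F ≃L[ℂ] F)}
  {τA : Gp →* (A ≃L[ℂ] A)} {PF : X → F →L[ℂ] F} {sF : X → F} {PL : Fin 3 → X → A →L[ℂ] A}
  {PC : X → A →L[ℂ] A} {cb : A → A} {K₁ : ℕ}

omit [NormedSpace ℝ X] [FiniteDimensional ℝ X] in
theorem mem_cth_of_infDist_le {Z : Set X} (hZ : Z.Nonempty) {x : X} {d : ℝ}
    (hx : infDist x Z ≤ d) : x ∈ cthickening d Z := by
  rw [mem_cthickening_iff, ← ENNReal.ofReal_toReal (infEDist_ne_top (x := x) hZ)]
  exact ENNReal.ofReal_le_ofReal hx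

theorem IsCore.exists_delta (h : IsCore O U ρ τF τA PF sF PL PC cb K₁) :
    ∃ δ : ℝ, IsDelta U ρ τA sF PL δ := by
  classical
  have h1 : ∀ a : Q3 × Q3, ∃ d : ℝ, 0 < d ∧ cthickening d (Zs U ρ τA sF PL a.1 a.2) ⊆ U :=
    fun a => (h.Zs_compact a.1 a.2).exists_cthickening_subset_open h.openU (h.Zs_sub a.1 a.2)
  have h2 : ∀ p : (Q3 × Q3) × (Q3 × Q3), ∃ d : ℝ, 0 < d ∧
      (IsRep p.1.1 → IsRep p.2.1 → p.1 ≠ p.2 →
        Disjoint (cthickening d (Zs U ρ τA sF PL p.1.1 p.1.2))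
          (cthickening d (Zs U ρ τA sF PL p.2.1 p.2.2))) := by
    intro p
    by_cases hp : IsRep p.1.1 ∧ IsRep p.2.1 ∧ p.1 ≠ p.2
    · obtain ⟨d, hd, hd'⟩ := (h.Zs_disjoint hp.1 hp.2.1 hp.2.2).exists_cthickenings
        (h.Zs_compact _ _) (h.Zs_compact _ _).isClosed
      exact ⟨d, hd, fun _ _ _ => hd'⟩
    · exact ⟨1, one_pos, fun h1 h2 h3 => absurd ⟨h1, h2, h3⟩ hp⟩
  choose d1 hd1 hd1' using h1
  choose d2 hd2 hd2' using h2
  obtain ⟨a0, ha0⟩ := Finite.exists_min d1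
  obtain ⟨p0, hp0⟩ := Finite.exists_min d2
  refine ⟨min (d1 a0) (d2 p0), lt_min (hd1 a0) (hd2 p0), ?_, ?_⟩
  · intro a ha x hx
    exact hd1' a (mem_cth_of_infDist_le ha.2
      ((hx.trans (min_le_left _ _)).trans (ha0 a)))
  · intro a ha b hb x hxa hxb
    by_contra hab
    have hm : min (d1 a0) (d2 p0) ≤ d2 (a, b) := (min_le_right _ _).trans (hp0 (a, b))
    exact Set.disjoint_left.1 (hd2' (a, b) ha.1 hb.1 hab)
      (mem_cth_of_infDist_le ha.2 (hxa.trans hm)) (mem_cth_of_infDist_le hb.2 (hxb.trans hm))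

theorem IsCore.dZ_move (h : IsCore O U ρ τF τA PF sF PL PC cb K₁) (v l q : Q3) (x : X) :
    dZ U ρ τA sF PL (v, l + om v q) (ρ (lift q) x) = dZ U ρ τA sF PL (v, l) x := by
  change infDist (ρ (lift q) x) (Zs U ρ τA sF PL v (l + om v q)) =
    infDist x (Zs U ρ τA sF PL v l)
  rw [← h.Zs_image v l q]
  exact infDist_image (ρ (lift q)).isometry

theorem IsCore.lab_move (h : IsCore O U ρ τF τA PF sF PL PC cb K₁) {v l : Q3}
    (ha : (v, l) ∈ Lab U ρ τA sF PL) (q : Q3) : (v, l + om v q) ∈ Lab U ρ τA sF PL := by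
  refine ⟨ha.1, ?_⟩
  change (Zs U ρ τA sF PL v (l + om v q)).Nonempty
  rw [← h.Zs_image v l q]
  exact ha.2.image _

theorem IsCore.exists_free (h : IsCore O U ρ τF τA PF sF PL PC cb K₁) {δ : ℝ}
    (hδ : IsDelta U ρ τA sF PL δ) :
    ∃ ε₀ : ℝ, 0 < ε₀ ∧ ∀ x ∈ closure U, ‖sF x‖ ≤ ε₀ →
      (∀ a ∈ Lab U ρ τA sF PL, δ / 3 ≤ dZ U ρ τA sF PL a x) → ∀ q, q ≠ 0 → ρ (lift q) x ≠ x := by
  classical
  have key : ∀ q : Q3, ∃ ε : ℝ, 0 < ε ∧ (q ≠ 0 → ∀ x ∈ closure U,
      (∀ a ∈ Lab U ρ τA sF PL, δ / 3 ≤ dZ U ρ τA sF PL a x) → ρ (lift q) x = x →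
        ε < ‖sF x‖) := by
    intro q
    set T : Set X := closure U ∩
      ({x | ∀ a ∈ Lab U ρ τA sF PL, δ / 3 ≤ dZ U ρ τA sF PL a x} ∩ {x | ρ (lift q) x = x})
      with hTdef
    have hTc : IsCompact T := by
      refine h.cptU.inter_right (IsClosed.inter ?_ ?_)
      · simp only [Set.ofPred_forall]
        refine isClosed_iInter fun a => isClosed_iInter fun _ => ?_
        exact isClosed_le continuous_const (continuous_infDist_pt _)
      · exact isClosed_eq (ρ (lift q)).continuous continuous_id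
    rcases T.eq_empty_or_nonempty with hT | hT
    · refine ⟨1, one_pos, fun _ x hx hxa hxq => ?_⟩
      have : x ∈ T := ⟨hx, hxa, hxq⟩
      rw [hT] at this
      exact absurd this (Set.notMem_empty x)
    · have hcont : ContinuousOn (fun x => ‖sF x‖) T :=
        (h.sec.cont.mono (inter_subset_left.trans h.clU)).norm
      obtain ⟨x0, hx0, hmin⟩ := hTc.exists_isMinOn hT hcont
      by_cases hq : q = 0
      · exact ⟨1, one_pos, fun hq' => absurd hq hq'⟩
      · have hne : sF x0 ≠ 0 := by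
          intro h0
          obtain ⟨a, ha, hxa⟩ := h.Zs_cover hx0.1 h0 hq hx0.2.2
          have h3 := hx0.2.1 a ha
          have h4 : dZ U ρ τA sF PL a x0 = 0 := infDist_zero_of_mem hxa
          have := hδ.pos
          linarith
        have hpos : 0 < ‖sF x0‖ := norm_pos_iff.2 hne
        refine ⟨‖sF x0‖ / 2, half_pos hpos, fun _ x hx hxa hxq => ?_⟩
        have hm : ‖sF x0‖ ≤ ‖sF x‖ := hmin (a := x) ⟨hx, hxa, hxq⟩
        linarith
  choose ε hε hε' using key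
  obtain ⟨q0, hq0⟩ := Finite.exists_min ε
  refine ⟨ε q0, hε q0, fun x hx hs hxa q hq hqx => ?_⟩
  have h1 := hε' q hq x hx hxa hqx
  have h2 := hq0 q
  linarith

end EMU
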