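import Pool.Agent.Lib.EMU.C.Near

/-!
# MP_9aab3b_gt, module C.Fam: transport of the perturbations along the orbits of labels

PROOF. Let `C₀ ≥ 1` bound `‖τF (lift q)‖` for all `q` (finite). The equivalence relation `(v, l) ~ (v, l + om v q)` on `Q3 × Q3`; choose a representative
`rp a = (a.1, l₀)` of the class of `a` (`Quotient.out` or classical choice) and `qq a : Q3` with `a.2 = (rp a).2 + om a.1 (qq a)`. (If `a ∈ Lab` then `rp a ∈ Lab`,
`lab_move`.) For each representative `b ∈ Lab` take `f'_b, h'_b` from `exists_near` with `ε / C₀`. Put, for all `a`, with `b = rp a`, `g = lift (qq a)`,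
`f' a x = τF g (f'_b (ρ g⁻¹ x))`, `h' a x = τA g (h'_b (ρ g⁻¹ x))` (and `b ∉ Lab`: anything).
* section: `eF.eqv`, `eL.eqv`, invariance of `O`. * closeness: `sF (ρ g y) = τF g (sF y)`.
* `r`: the values `dZ b x` at the finitely many zeros of the shell of each representative `b ∈ Lab`: choose `r ∈ (δ/3, 2δ/3)` different from all of them. If
  `x ∈ closure U`, `dZ a x = r` and `(f' a x, h' a x) = 0` then `y = ρ g⁻¹ x ∈ closure U` has `dZ b y = r` (`dZ_move`) and is a zero of `(f'_b, h'_b)`: contradiction.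
* equivariance: `a = (v, l)`, `q` given, `a' = (v, l + om v q)`, same representative `b = (v, l₀)`. `g = lift (qq a)`, `g' = lift (qq a')`.
  `l₀ + om v (qq a') = l₀ + om v (qq a) + om v q`, so `om v (qq a' - qq a - q) = 0` and `qq a' = q + qq a + c • v` (`om_eq_zero`), hence
  `g' = lift q * g * lift v ^ c.val * cen n` for some `n` (`lift_mul`, `lift_smul`, `cen_comm`, `cen_mul`). With `y = ρ g⁻¹ x`, `x ∈ O`:
  `ρ g'⁻¹ (ρ (lift q) x) = ρ ((lift v ^ c.val)⁻¹) y =: y'` (`ρN`), so `y = ρ (lift v ^ c.val) y'` and by equivariance of `f'_b` under `lift v` (iterate),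
  `f'_b y = τF (lift v ^ c.val) (f'_b y')`. So `f' a' (ρ (lift q) x) = τF g' (f'_b y') = τF (lift q) τF g τF (lift v ^ c.val) (τF (cen n) (f'_b y'))
  = τF (lift q) τF g (f'_b y) = τF (lift q) (f' a x)` (`NF`: `cen n` acts trivially on the fibre at `y'`). For the `A` component apply `cb` first:
  `cb (h' a' (ρ (lift q) x)) = τA g' (cb (h'_b y'))` (`cubeE`) and `cen n` acts trivially on `cb (h'_b y')`, which is in the fibre of `PC` (`IsCore.NC`, `cube.mem`).
-/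

set_option autoImplicit false

open Set Metric Topology

namespace EMU

variable {X F A : Type*} [NormedAddCommGroup X] [NormedSpace ℝ X] [FiniteDimensional ℝ X]
  [Nontrivial X] [NormedAddCommGroup F] [NormedSpace ℂ F] [FiniteDimensional ℂ F]
  [NormedAddCommGroup A] [NormedSpace ℂ A] [FiniteDimensional ℂ A]
  {O U : Set X} {ρ : Gp →* (X ≃ₗᵢ[ℝ] X)} {τF : Gp →* (F ≃L[ℂ] F)}
  {τA : Gp →* (A ≃L[ℂ] A)} {PF : X → F →L[ℂ] F} {sF : X → F} {PL : Fin 3 → X → A →L[ℂ] A}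
  {PC : X → A →L[ℂ] A} {cb : A → A} {K₁ : ℕ}

omit [FiniteDimensional ℂ F] in
private theorem fam_tF (g g' : Gp) (a : F) : τF (g * g') a = τF g (τF g' a) := by
  rw [map_mul]; rfl

omit [FiniteDimensional ℂ A] in
private theorem fam_tA (g g' : Gp) (a : A) : τA (g * g') a = τA g (τA g' a) := by
  rw [map_mul]; rfl

omit [FiniteDimensional ℝ X] [Nontrivial X] in
private theorem fam_rho (g g' : Gp) (x : X) : ρ (g * g') x = ρ g (ρ g' x) := by
  rw [map_mul]; rfl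

omit [FiniteDimensional ℝ X] [Nontrivial X] in
private theorem fam_rho_inv (g : Gp) (x : X) : ρ g (ρ g⁻¹ x) = x := by
  rw [← fam_rho, mul_inv_cancel, map_one]; rfl

private theorem fam_om_zero (v : Q3) : om v 0 = 0 := by
  have h := om_add_right v 0 0
  rw [add_zero] at h
  exact left_eq_add.1 h

private theorem fam_om_neg (v q : Q3) : om v (-q) = -om v q := by
  have h := om_add_right v q (-q)
  rw [add_neg_cancel, fam_om_zero] at h
  exact (neg_eq_of_add_eq_zero_right h.symm).symm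

private theorem fam_lift_add (p p' : Q3) : ∃ n : Q3, lift (p + p') = lift p * lift p' * cen n := by
  refine ⟨-beta p p', ?_⟩
  rw [lift_mul, mul_assoc, cen_mul, add_neg_cancel]
  have : cen (0 : Q3) = 1 := rfl
  rw [this, mul_one]

/-- the equivalence relation on labels -/
private def famRel : Setoid (Q3 × Q3) where
  r a b := ∃ q, b = (a.1, a.2 + om a.1 q)
  iseqv := by
    refine ⟨fun a => ⟨0, ?_⟩, ?_, ?_⟩
    · rw [fam_om_zero, add_zero]
    · rintro a b ⟨q, rfl⟩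
      refine ⟨-q, ?_⟩
      rw [fam_om_neg, add_neg_cancel_right]
    · rintro a b c ⟨q, rfl⟩ ⟨q', rfl⟩
      refine ⟨q + q', ?_⟩
      rw [om_add_right, add_assoc]

private noncomputable def famRp (a : Q3 × Q3) : Q3 × Q3 := (Quotient.mk famRel a).out

private theorem famRp_spec (a : Q3 × Q3) :
    ∃ q, a = ((famRp a).1, (famRp a).2 + om (famRp a).1 q) :=
  Quotient.exact (s := famRel) (Quotient.out_eq (Quotient.mk famRel a))

private theorem famRp_eq (a : Q3 × Q3) (q : Q3) : famRp (a.1, a.2 + om a.1 q) = famRp a := by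
  have h : Quotient.mk famRel (a.1, a.2 + om a.1 q) = Quotient.mk famRel a :=
    (Quotient.sound (s := famRel) (⟨q, rfl⟩ : famRel.r a (a.1, a.2 + om a.1 q))).symm
  unfold famRp
  rw [h]

private noncomputable def famQ (a : Q3 × Q3) : Q3 := (famRp_spec a).choose

private theorem famQ_spec (a : Q3 × Q3) :
    a = ((famRp a).1, (famRp a).2 + om (famRp a).1 (famQ a)) := (famRp_spec a).choose_spec

theorem IsCore.exists_family (h : IsCore O U ρ τF τA PF sF PL PC cb K₁)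
    (e : X ≃L[ℝ] (Fin (K₁ + 1) → ℂ)) {δ : ℝ} (hδ : IsDelta U ρ τA sF PL δ) {ε : ℝ} (hε : 0 < ε) :
    ∃ (r : ℝ) (f' : Q3 × Q3 → X → F) (h' : Q3 × Q3 → X → A), δ / 3 < r ∧ r < 2 * δ / 3 ∧
      (∀ a ∈ Lab U ρ τA sF PL, IsSec O (dsum PF (PL 0)) (fun x => (f' a x, h' a x))) ∧
      (∀ a ∈ Lab U ρ τA sF PL, ∀ x ∈ O, ‖f' a x - sF x‖ ≤ ε) ∧
      (∀ a ∈ Lab U ρ τA sF PL, ∀ q, ∀ x ∈ O,
        f' (a.1, a.2 + om a.1 q) (ρ (lift q) x) = τF (lift q) (f' a x) ∧
        cb (h' (a.1, a.2 + om a.1 q) (ρ (lift q) x)) = τA (lift q) (cb (h' a x))) ∧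
      (∀ a ∈ Lab U ρ τA sF PL, ∀ x ∈ closure U, dZ U ρ τA sF PL a x = r →
        (f' a x, h' a x) ≠ 0) := by
  classical
  have hδ0 := hδ.pos
  -- the bound for the norms
  obtain ⟨C₀, hC0, hC⟩ : ∃ C₀ : ℝ, 0 < C₀ ∧ ∀ (q : Q3) (v : F), ‖τF (lift q) v‖ ≤ C₀ * ‖v‖ := by
    refine ⟨∑ q : Q3, ‖((τF (lift q) : F ≃L[ℂ] F) : F →L[ℂ] F)‖ + 1, by positivity, ?_⟩
    intro q v
    have h1 : ‖τF (lift q) v‖ ≤ ‖((τF (lift q) : F ≃L[ℂ] F) : F →L[ℂ] F)‖ * ‖v‖ :=
      ((τF (lift q) : F ≃L[ℂ] F) : F →L[ℂ] F).le_opNorm v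
    have h2 : ‖((τF (lift q) : F ≃L[ℂ] F) : F →L[ℂ] F)‖
        ≤ ∑ q : Q3, ‖((τF (lift q) : F ≃L[ℂ] F) : F →L[ℂ] F)‖ :=
      Finset.single_le_sum (f := fun q : Q3 => ‖((τF (lift q) : F ≃L[ℂ] F) : F →L[ℂ] F)‖)
        (fun _ _ => norm_nonneg _) (Finset.mem_univ q)
    exact h1.trans (mul_le_mul_of_nonneg_right (by linarith) (norm_nonneg _))
  have hε' : 0 < ε / C₀ := div_pos hε hC0
  -- the perturbations at the representatives
  have hnear : ∀ b : Q3 × Q3, ∃ (f' : X → F) (h' : X → A), b ∈ Lab U ρ τA sF PL →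
      IsSec O (dsum PF (PL 0)) (fun x => (f' x, h' x)) ∧
      (∀ x ∈ O, f' (ρ (lift b.1) x) = τF (lift b.1) (f' x) ∧
        h' (ρ (lift b.1) x) = τA (lift b.1) (h' x)) ∧
      (∀ x ∈ O, ‖f' x - sF x‖ ≤ ε / C₀ ∧ ‖h' x‖ ≤ ε / C₀) ∧
      {x | x ∈ closure U ∧ δ / 3 ≤ dZ U ρ τA sF PL b x ∧ dZ U ρ τA sF PL b x ≤ 2 * δ / 3 ∧
        f' x = 0 ∧ h' x = 0}.Finite := by
    intro b
    by_cases hb : b ∈ Lab U ρ τA sF PL
    · obtain ⟨f', h', h1⟩ := h.exists_near e hδ hb hε'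
      exact ⟨f', h', fun _ => h1⟩
    · exact ⟨0, 0, fun hb' => absurd hb' hb⟩
  choose fb hb hnear using hnear
  -- the radius
  obtain ⟨r, ⟨hr1, hr2⟩, hr⟩ : ∃ r ∈ Ioo (δ / 3) (2 * δ / 3), r ∉ ⋃ b : Q3 × Q3,
      (if b ∈ Lab U ρ τA sF PL then dZ U ρ τA sF PL b '' {x | x ∈ closure U ∧
        δ / 3 ≤ dZ U ρ τA sF PL b x ∧ dZ U ρ τA sF PL b x ≤ 2 * δ / 3 ∧
        fb b x = 0 ∧ hb b x = 0} else ∅) := by
    have hfin : (⋃ b : Q3 × Q3,
      (if b ∈ Lab U ρ τA sF PL then dZ U ρ τA sF PL b '' {x | x ∈ closure U ∧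
        δ / 3 ≤ dZ U ρ τA sF PL b x ∧ dZ U ρ τA sF PL b x ≤ 2 * δ / 3 ∧
        fb b x = 0 ∧ hb b x = 0} else ∅)).Finite := by
      refine Set.finite_iUnion fun b => ?_
      split_ifs with hb'
      · exact ((hnear b hb').2.2.2).image _
      · exact Set.finite_empty
    have hinf : (Ioo (δ / 3) (2 * δ / 3)).Infinite := Set.Ioo_infinite (by linarith)
    obtain ⟨r, hr⟩ := (hinf.sdiff hfin).nonempty
    exact ⟨r, hr.1, hr.2⟩
  have hLab : ∀ a ∈ Lab U ρ τA sF PL, famRp a ∈ Lab U ρ τA sF PL := by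
    intro a ha
    have h1 := famQ_spec a
    have h2 : ((famRp a).1, (famRp a).2 + om (famRp a).1 (famQ a)) ∈ Lab U ρ τA sF PL := h1 ▸ ha
    have h3 := h.lab_move h2 (-famQ a)
    rw [fam_om_neg, add_neg_cancel_right] at h3
    exact h3
  have hiO : ∀ g : Gp, ∀ x ∈ O, ρ g x ∈ O := h.eF.inv
  -- powers
  have hpowf : ∀ b ∈ Lab U ρ τA sF PL, ∀ k : ℕ, ∀ y ∈ O,
      fb b (ρ (lift b.1 ^ k) y) = τF (lift b.1 ^ k) (fb b y) ∧
      hb b (ρ (lift b.1 ^ k) y) = τA (lift b.1 ^ k) (hb b y) := by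
    intro b hb' k
    induction k with
    | zero =>
      intro y _
      simp only [pow_zero, map_one]
      exact ⟨rfl, rfl⟩
    | succ k ih =>
      intro y hy
      have h1 := ih (ρ (lift b.1) y) (hiO _ y hy)
      have h2 := (hnear b hb').2.1 y hy
      rw [pow_succ, fam_rho, h1.1, h1.2, h2.1, h2.2, fam_tF, fam_tA]
      exact ⟨rfl, rfl⟩
  refine ⟨r, fun a x => τF (lift (famQ a)) (fb (famRp a) (ρ (lift (famQ a))⁻¹ x)),
    fun a x => τA (lift (famQ a)) (hb (famRp a) (ρ (lift (famQ a))⁻¹ x)), hr1, hr2, ?_, ?_, ?_, ?_⟩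
  · -- sections
    intro a ha
    have hs := (hnear _ (hLab a ha)).1
    have hmaps : MapsTo (fun x => ρ (lift (famQ a))⁻¹ x) O O := fun x hx => hiO _ x hx
    refine ⟨?_, ?_⟩
    · have c1 : ContinuousOn (fun x => (fb (famRp a) x, hb (famRp a) x)) O := hs.cont
      have c2 : ContinuousOn (fun x => (fb (famRp a) (ρ (lift (famQ a))⁻¹ x),
          hb (famRp a) (ρ (lift (famQ a))⁻¹ x))) O :=
        c1.comp (ρ (lift (famQ a))⁻¹).continuous.continuousOn hmaps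
      exact ((τF (lift (famQ a))).continuous.comp_continuousOn c2.fst).prodMk
        ((τA (lift (famQ a))).continuous.comp_continuousOn c2.snd)
    · intro x hx
      have hy : ρ (lift (famQ a))⁻¹ x ∈ O := hiO _ x hx
      have h1 := hs.mem _ hy
      have h1a : PF (ρ (lift (famQ a))⁻¹ x) (fb (famRp a) (ρ (lift (famQ a))⁻¹ x))
          = fb (famRp a) (ρ (lift (famQ a))⁻¹ x) := congrArg Prod.fst h1
      have h1b : PL 0 (ρ (lift (famQ a))⁻¹ x) (hb (famRp a) (ρ (lift (famQ a))⁻¹ x))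
          = hb (famRp a) (ρ (lift (famQ a))⁻¹ x) := congrArg Prod.snd h1
      have h2 := h.eF.eqv (lift (famQ a)) _ hy (fb (famRp a) (ρ (lift (famQ a))⁻¹ x))
      have h3 := (h.eL 0).eqv (lift (famQ a)) _ hy (hb (famRp a) (ρ (lift (famQ a))⁻¹ x))
      rw [fam_rho_inv, h1a] at h2
      rw [fam_rho_inv, h1b] at h3
      exact Prod.ext h2 h3
  · -- closeness
    intro a ha x hx
    have hy : ρ (lift (famQ a))⁻¹ x ∈ O := hiO _ x hx
    have h1 := ((hnear _ (hLab a ha)).2.2.1 _ hy).1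
    have h2 := h.secE (lift (famQ a)) _ hy
    rw [fam_rho_inv] at h2
    change ‖τF (lift (famQ a)) (fb (famRp a) (ρ (lift (famQ a))⁻¹ x)) - sF x‖ ≤ ε
    rw [h2, ← map_sub]
    refine (hC _ _).trans ?_
    calc C₀ * ‖fb (famRp a) (ρ (lift (famQ a))⁻¹ x) - sF (ρ (lift (famQ a))⁻¹ x)‖
        ≤ C₀ * (ε / C₀) := mul_le_mul_of_nonneg_left h1 hC0.le
      _ = ε := by field_simp
  · -- equivariance
    intro a ha q x hx
    have hb' := hLab a ha
    have hrp : famRp (a.1, a.2 + om a.1 q) = famRp a := famRp_eq a q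
    obtain ⟨b, hbdef⟩ : ∃ b, b = famRp a := ⟨_, rfl⟩
    obtain ⟨qa, hqa⟩ : ∃ qa, qa = famQ a := ⟨_, rfl⟩
    obtain ⟨qa', hqa'⟩ : ∃ qa', qa' = famQ (a.1, a.2 + om a.1 q) := ⟨_, rfl⟩
    have ha1 : a = (b.1, b.2 + om b.1 qa) := by rw [hbdef, hqa]; exact famQ_spec a
    have ha2 : (a.1, a.2 + om a.1 q) = (b.1, b.2 + om b.1 qa') := by
      have := famQ_spec (a.1, a.2 + om a.1 q)
      rw [hrp, ← hbdef, ← hqa'] at this
      exact this
    simp only [hrp, ← hbdef, ← hqa, ← hqa']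
    rw [← hbdef] at hb'
    have hav : a.1 = b.1 := (Prod.ext_iff.1 ha1).1
    have hl : a.2 = b.2 + om b.1 qa := (Prod.ext_iff.1 ha1).2
    have hl' : a.2 + om a.1 q = b.2 + om b.1 qa' := (Prod.ext_iff.1 ha2).2
    have hom : om b.1 (qa' - (q + qa)) = 0 := by
      rw [sub_eq_add_neg, om_add_right, fam_om_neg, om_add_right]
      rw [hav, hl] at hl'
      have h5 : om b.1 qa + om b.1 q = om b.1 qa' := by
        rw [add_assoc] at hl'
        exact add_left_cancel hl'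
      rw [← h5]
      abel
    obtain ⟨c, hc⟩ := om_eq_zero hom (rep_ne_zero hb'.1)
    have hq' : qa' = (q + qa) + c • b.1 := by rw [← hc]; abel
    obtain ⟨n, hn⟩ : ∃ n : Q3, lift qa' = lift q * lift qa * lift b.1 ^ c.val * cen n := by
      obtain ⟨n1, h1⟩ := fam_lift_add (q + qa) (c • b.1)
      obtain ⟨n2, h2⟩ := fam_lift_add q qa
      obtain ⟨n3, h3⟩ := lift_smul c b.1
      refine ⟨n2 + n3 + n1, ?_⟩
      rw [hq', h1, h2, h3]
      calc lift q * lift qa * cen n2 * (lift b.1 ^ c.val * cen n3) * cen n1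
          = lift q * lift qa * (cen n2 * lift b.1 ^ c.val) * cen n3 * cen n1 := by
            simp only [mul_assoc]
        _ = lift q * lift qa * (lift b.1 ^ c.val * cen n2) * cen n3 * cen n1 := by
            rw [cen_comm]
        _ = lift q * lift qa * lift b.1 ^ c.val * (cen n2 * cen n3 * cen n1) := by
            simp only [mul_assoc]
        _ = _ := by rw [cen_mul, cen_mul]
    have hy : ρ (lift qa)⁻¹ x ∈ O := hiO _ x hx
    have hy' : ρ (lift qa')⁻¹ (ρ (lift q) x) ∈ O := hiO _ _ (hiO _ x hx)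
    have hyy : ρ (lift b.1 ^ c.val) (ρ (lift qa')⁻¹ (ρ (lift q) x)) = ρ (lift qa)⁻¹ x := by
      have e1 : (lift qa)⁻¹ = lift b.1 ^ c.val * (cen n * ((lift qa')⁻¹ * lift q)) := by
        rw [hn]
        simp only [mul_inv_rev, mul_assoc, inv_mul_cancel, mul_one, mul_inv_cancel_left]
      rw [e1, fam_rho, fam_rho, h.ρN, fam_rho]
      rfl
    have hP := hpowf b hb' c.val _ hy'
    rw [hyy] at hP
    have hs := (hnear b hb').1
    have h1 := hs.mem _ hy'
    have h1a : PF (ρ (lift qa')⁻¹ (ρ (lift q) x)) (fb b (ρ (lift qa')⁻¹ (ρ (lift q) x)))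
        = fb b (ρ (lift qa')⁻¹ (ρ (lift q) x)) := congrArg Prod.fst h1
    have h1b : PL 0 (ρ (lift qa')⁻¹ (ρ (lift q) x)) (hb b (ρ (lift qa')⁻¹ (ρ (lift q) x)))
        = hb b (ρ (lift qa')⁻¹ (ρ (lift q) x)) := congrArg Prod.snd h1
    constructor
    · rw [hP.1]
      rw [show τF (lift qa') (fb b (ρ (lift qa')⁻¹ (ρ (lift q) x)))
        = τF (lift q * lift qa * lift b.1 ^ c.val * cen n)
          (fb b (ρ (lift qa')⁻¹ (ρ (lift q) x))) from by rw [← hn]]
      rw [fam_tF, fam_tF, fam_tF, h.NF _ hy' _ h1a n]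
    · rw [hP.2]
      rw [h.cubeE, h.cubeE, h.cubeE]
      rw [show τA (lift qa') (cb (hb b (ρ (lift qa')⁻¹ (ρ (lift q) x))))
        = τA (lift q * lift qa * lift b.1 ^ c.val * cen n)
          (cb (hb b (ρ (lift qa')⁻¹ (ρ (lift q) x)))) from by rw [← hn]]
      rw [fam_tA, fam_tA, fam_tA, h.NC hy' (h.cube.mem _ hy' _ h1b) n]
  · -- no zeros on the sphere
    intro a ha x hx hd h0
    have hb' := hLab a ha
    have h1 : τF (lift (famQ a)) (fb (famRp a) (ρ (lift (famQ a))⁻¹ x)) = 0 :=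
      congrArg Prod.fst h0
    have h2 : τA (lift (famQ a)) (hb (famRp a) (ρ (lift (famQ a))⁻¹ x)) = 0 :=
      congrArg Prod.snd h0
    have h1' : fb (famRp a) (ρ (lift (famQ a))⁻¹ x) = 0 :=
      (τF (lift (famQ a))).injective (by rw [h1, map_zero])
    have h2' : hb (famRp a) (ρ (lift (famQ a))⁻¹ x) = 0 :=
      (τA (lift (famQ a))).injective (by rw [h2, map_zero])
    have hyc : ρ (lift (famQ a))⁻¹ x ∈ closure U :=
      map_mem_closure (ρ (lift (famQ a))⁻¹).continuous hx fun y hy => h.invU _ y hy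
    have hdb : dZ U ρ τA sF PL (famRp a) (ρ (lift (famQ a))⁻¹ x) = r := by
      have h3 := h.dZ_move (famRp a).1 (famRp a).2 (famQ a) (ρ (lift (famQ a))⁻¹ x)
      rw [fam_rho_inv, ← famQ_spec a] at h3
      rw [← hd, h3]
    refine hr (mem_iUnion.2 ⟨famRp a, ?_⟩)
    rw [if_pos hb']
    exact ⟨_, ⟨hyc, by rw [hdb]; exact hr1.le, by rw [hdb]; exact hr2.le, h1', h2'⟩, hdb⟩

end EMU
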