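import Pool.Agent.Lib.EMU.C.Delta
import Pool.Agent.Lib.EMU.B.CubeInd
import Pool.Agent.Lib.EMU.B.NzDvd

/-!
# MP_9aab3b_gt, module C.Far: the zeros far from the singular ones

PROOF. `Γ = Multiplicative Q3` (order 27) acts by `ρ' q = ρ (lift q)`: a homomorphism since `lift q * lift q' = lift (q + q') * cen …` and `ρN`; and by
`τ q = (τF (lift q)).prodCongr (τA (lift q))`, which is multiplicative on the fibres (`lift_mul`, `NF`, `IsCore.NC`: `cen` acts trivially on the fibres of
`PF`, `PC`). So `IsEqBun O (dsum PF PC) ρ' τ` (`eF.eqv`, `eC.eqv`, `eF.inv`), and `(f, k)` is an equivariant section (`IsGlued.eqv`).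
`V = {x ∈ U | ∀ a ∈ Lab, r < dZ a x}` is open (`Lab` finite, `dZ` continuous), invariant (`invU`; `dZ_move` and `lab_move`: for `a = (v, l) ∈ Lab`,
`dZ a (ρ (lift q) x) = dZ (v, l - om v q) x` and `(v, l - om v q) ∈ Lab`), `closure V ⊆ closure U`. Its frontier: `x ∈ frontier V` is in `closure U`, not in `V`,
and `r ≤ dZ a x` for all `a ∈ Lab`; so `x ∈ frontier U` or `dZ a x = r` for some `a ∈ Lab`. In the first case
`‖f x - sF x‖ ≤ ε < ‖sF x‖` (`hε2`), so `f x ≠ 0`; in the second case `(f x, k x) ≠ 0` by `shell` (`k x = cb (h' x)`, `cb v = 0 → v = 0`).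
Freeness: a zero `x ∈ closure V` of `(f, k)` has `‖sF x‖ ≤ ε ≤ ε₀` and `δ / 3 < r ≤ dZ a x` for all `a ∈ Lab`, so `ρ (lift q) x ≠ x` for `q ≠ 0` (hypothesis `hfree`).
`Nz_dvd` with `Nat.card Γ = 27` and `IsCore.det_pos`.
-/

set_option autoImplicit false

open Set Metric Topology

namespace EMU

variable {X F A : Type*} [NormedAddCommGroup X] [NormedSpace ℝ X] [FiniteDimensional ℝ X]
  [Nontrivial X] [NormedAddCommGroup F] [NormedSpace ℂ F] [FiniteDimensional ℂ F]
  [NormedAddCommGroup A] [NormedSpace ℂ A] [FiniteDimensional ℂ A]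
  {O U : Set X} {ρ : Gp →* (X ≃ₗᵢ[ℝ] X)} {τF : Gp →* (F ≃L[ℂ] F)}
  {τA : Gp →* (A ≃L[ℂ] A)} {PF : X → F →L[ℂ] F} {sF : X → F} {PL : Fin 3 → X → A →L[ℂ] A}
  {PC : X → A →L[ℂ] A} {cb : A → A} {K₁ : ℕ}

/-- the action of the quotient group of order 27 on `X` -/
private noncomputable def farRho (h : IsCore O U ρ τF τA PF sF PL PC cb K₁) :
    Multiplicative Q3 →* (X ≃ₗᵢ[ℝ] X) where
  toFun q := ρ (lift (Multiplicative.toAdd q))
  map_one' := by
    have h1 : lift (Multiplicative.toAdd (1 : Multiplicative Q3)) = 1 := rfl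
    rw [h1, map_one]
  map_mul' q q' := by
    have h1 := congrArg ρ (lift_mul (Multiplicative.toAdd q) (Multiplicative.toAdd q'))
    rw [map_mul, map_mul, h.ρN, mul_one] at h1
    exact h1.symm

omit [FiniteDimensional ℝ X] [Nontrivial X] [FiniteDimensional ℂ F] [FiniteDimensional ℂ A] in
private theorem far_om (v q : Q3) : om v (-q) + om v q = 0 := by
  rw [← om_add_right, neg_add_cancel]
  funext i
  simp [om]

private theorem far_eqBun (h : IsCore O U ρ τF τA PF sF PL PC cb K₁) :
    IsEqBun O (dsum PF PC) (farRho h) (fun q : Multiplicative Q3 =>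
      (τF (lift (Multiplicative.toAdd q))).prodCongr (τA (lift (Multiplicative.toAdd q)))) := by
  refine ⟨fun q x hx => h.eF.inv _ x hx, ?_, ?_⟩
  · rintro q x hx ⟨v, w⟩
    exact Prod.ext (h.eF.eqv _ x hx v) (h.eC.eqv _ x hx w)
  · rintro q q' x hx ⟨v, w⟩ hv
    have hv1 : PF x v = v := congrArg Prod.fst hv
    have hv2 : PC x w = w := congrArg Prod.snd hv
    have h1 := lift_mul (Multiplicative.toAdd q) (Multiplicative.toAdd q')
    refine Prod.ext ?_ ?_
    · change τF (lift (Multiplicative.toAdd q)) (τF (lift (Multiplicative.toAdd q')) v) =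
        τF (lift (Multiplicative.toAdd q + Multiplicative.toAdd q')) v
      have h2 : τF (lift (Multiplicative.toAdd q)) (τF (lift (Multiplicative.toAdd q')) v) =
          τF (lift (Multiplicative.toAdd q) * lift (Multiplicative.toAdd q')) v := by
        rw [map_mul]; rfl
      rw [h2, h1, map_mul]
      change τF (lift (Multiplicative.toAdd q + Multiplicative.toAdd q')) (τF (cen _) v) = _
      rw [h.NF x hx v hv1]
    · change τA (lift (Multiplicative.toAdd q)) (τA (lift (Multiplicative.toAdd q')) w) =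
        τA (lift (Multiplicative.toAdd q + Multiplicative.toAdd q')) w
      have h2 : τA (lift (Multiplicative.toAdd q)) (τA (lift (Multiplicative.toAdd q')) w) =
          τA (lift (Multiplicative.toAdd q) * lift (Multiplicative.toAdd q')) w := by
        rw [map_mul]; rfl
      rw [h2, h1, map_mul]
      change τA (lift (Multiplicative.toAdd q + Multiplicative.toAdd q')) (τA (cen _) w) = _
      rw [h.NC hx hv2]

theorem IsCore.far_dvd (h : IsCore O U ρ τF τA PF sF PL PC cb K₁)
    (e : X ≃L[ℝ] (Fin (K₁ + 1) → ℂ)) {δ r ε ε₀ : ℝ} (hδ : IsDelta U ρ τA sF PL δ)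
    (hfree : ∀ x ∈ closure U, ‖sF x‖ ≤ ε₀ →
      (∀ a ∈ Lab U ρ τA sF PL, δ / 3 ≤ dZ U ρ τA sF PL a x) → ∀ q, q ≠ 0 → ρ (lift q) x ≠ x)
    (hε : ε ≤ ε₀) (hε2 : ∀ x ∈ frontier U, ε < ‖sF x‖) {f : X → F} {k : X → A}
    (hg : IsGlued O U ρ τF τA PF sF PL PC cb δ r ε f k) :
    (27 : ℤ) ∣ Nz e O (dsum PF PC) (fun x => (f x, k x))
      {x | x ∈ U ∧ ∀ a ∈ Lab U ρ τA sF PL, r < dZ U ρ τA sF PL a x} := by
  classical
  set V : Set X := {x | x ∈ U ∧ ∀ a ∈ Lab U ρ τA sF PL, r < dZ U ρ τA sF PL a x} with hV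
  have hVo : IsOpen V := by
    have h1 : V = U ∩ ⋂ a ∈ Lab U ρ τA sF PL, {x | r < dZ U ρ τA sF PL a x} := by
      ext x
      simp [hV]
    rw [h1]
    refine h.openU.inter ((Set.toFinite _).isOpen_biInter fun a _ => ?_)
    exact isOpen_lt continuous_const (continuous_infDist_pt _)
  have hVU : V ⊆ U := fun x hx => hx.1
  have hcl : closure V ⊆ closure U := closure_mono hVU
  have hge : ∀ x ∈ closure V, ∀ a ∈ Lab U ρ τA sF PL, r ≤ dZ U ρ τA sF PL a x := by
    intro x hx a ha
    have hc : IsClosed {x | r ≤ dZ U ρ τA sF PL a x} :=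
      isClosed_le continuous_const (continuous_infDist_pt _)
    exact closure_minimal (fun y hy => (hy.2 a ha).le) hc hx
  have hinv : ∀ q : Multiplicative Q3, ∀ x ∈ V, farRho h q x ∈ V := by
    rintro q x ⟨hx, hxa⟩
    refine ⟨h.invU _ x hx, ?_⟩
    rintro ⟨v, l⟩ ha
    change r < dZ U ρ τA sF PL (v, l) (ρ (lift (Multiplicative.toAdd q)) x)
    have h1 := h.lab_move ha (-(Multiplicative.toAdd q))
    have h2 := h.dZ_move v (l + om v (-(Multiplicative.toAdd q))) (Multiplicative.toAdd q) x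
    rw [add_assoc, far_om, add_zero] at h2
    rw [h2]
    exact hxa _ h1
  have hmem : ∀ x ∈ closure V, x ∈ O := fun x hx => h.clU (hcl hx)
  have h0 : ∀ x ∈ frontier V, (fun x => (f x, k x)) x ≠ 0 := by
    intro x hx hz
    have hf0 : f x = 0 := congrArg Prod.fst hz
    have hk0 : k x = 0 := congrArg Prod.snd hz
    have hxc : x ∈ closure V := frontier_subset_closure hx
    have hxV : x ∉ V := by
      rw [hVo.frontier_eq] at hx
      exact hx.2
    by_cases hxU : x ∈ U
    · have : ∃ a ∈ Lab U ρ τA sF PL, dZ U ρ τA sF PL a x ≤ r := by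
        by_contra hcon
        push Not at hcon
        exact hxV ⟨hxU, hcon⟩
      obtain ⟨a, ha, har⟩ := this
      have hr := le_antisymm har (hge x hxc a ha)
      obtain ⟨f', h', -, hsh⟩ := hg.shell a ha
      obtain ⟨h2, h3, h4⟩ := hsh x hr
      apply h4
      have h7 : h' x = 0 := h.cube.inj _ (by rw [← h3, hk0])
      rw [← h2, hf0, h7]
      rfl
    · have hfr : x ∈ frontier U := by
        rw [h.openU.frontier_eq]
        exact ⟨hcl hxc, hxU⟩
      have h1 := hε2 x hfr
      have h2 := hg.close x (hmem x hxc)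
      rw [hf0, zero_sub, norm_neg] at h2
      linarith
  have hfr' : ∀ x ∈ closure V, (fun x => (f x, k x)) x = 0 → ∀ q : Multiplicative Q3, q ≠ 1 →
      farRho h q x ≠ x := by
    intro x hx hz q hq
    have hf0 : f x = 0 := congrArg Prod.fst hz
    have h2 := hg.close x (hmem x hx)
    rw [hf0, zero_sub, norm_neg] at h2
    refine hfree x (hcl hx) (h2.trans hε) (fun a ha => ?_) (Multiplicative.toAdd q) ?_
    · exact hg.r1.le.trans (hge x hx a ha)
    · intro h3
      exact hq h3
  have hse : IsEqSec O (farRho h) (fun q : Multiplicative Q3 =>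
      (τF (lift (Multiplicative.toAdd q))).prodCongr (τA (lift (Multiplicative.toAdd q))))
      (fun x => (f x, k x)) := by
    intro q x hx
    obtain ⟨h4, h5⟩ := hg.eqv (Multiplicative.toAdd q) x hx
    exact Prod.ext h4 h5
  have hb : IsBun O (dsum PF PC) (K₁ + 1) := isBun_dsum h.bF h.bC
  have key := Nz_dvd h.openO hb e (far_eqBun h) hg.sec hse
    (fun q => h.det_pos (lift (Multiplicative.toAdd q))) hVo
    (h.cptU.of_isClosed_subset isClosed_closure hcl) (hcl.trans h.clU) hinv h0 hfr'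
  have hcard : Nat.card (Multiplicative Q3) = 27 := by
    rw [Nat.card_eq_fintype_card, Fintype.card_multiplicative, Fintype.card_fun]
    simp [ZMod.card]
  rw [hcard] at key
  exact key

end EMU
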