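import Pool.Agent.Lib.EMU.C.Fam

/-!
# MP_9aab3b_gt, module C.Glue: the glued equivariant section

PROOF. Take `r, f', h'` from `exists_family` and `θ : ℝ → [0,1]` continuous with `θ r = 1` and `θ = 0` outside `(δ/3, 2δ/3)` (e.g. a piecewise linear
function). `Lab` is finite (`Set.toFinite`); put
`f x = sF x + ∑ a ∈ Lab, θ (dZ a x) • (f' a x - sF x)`, `k x = ∑ a ∈ Lab, θ (dZ a x) • cb (h' a x)`. At each `x` at most one `a ∈ Lab` has
`dZ a x < 2 δ / 3 ≤ δ` (`IsDelta.dis`), so at most one term is non zero: `‖f x - sF x‖ ≤ ε`, and if `dZ a x = r` then `f x = f' a x`, `k x = cb (h' a x)`.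
Section: `isSec_cube` for each `a`; real scalars and sums of sections of `PF`, `PC`; continuity of `dZ a` (`continuous_infDist_pt`).
Equivariance: `f (ρ (lift q) x)`: the map `a ↦ (a.1, a.2 + om a.1 q)` is a bijection of `Lab` (`lab_move`, inverse with `-q`), so
`∑ a, θ (dZ a (ρ (lift q) x)) • … = ∑ a, θ (dZ (a.1, a.2 + om a.1 q) (ρ (lift q) x)) • … = ∑ a, θ (dZ a x) • …` (`dZ_move`), with the equivariance of the family
and of `sF` (`secE`) and linearity of `τF (lift q)`.
`shell`: for `a ∈ Lab` use `f' a`, `h' a`; if `dZ a x = r` then `x ∈ U` (`IsDelta.sub`, `r ≤ δ`), so `x ∈ closure U` and `(f' a x, h' a x) ≠ 0`.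
-/

set_option autoImplicit false

open Set Metric Topology

namespace EMU

variable {X F A : Type*} [NormedAddCommGroup X] [NormedSpace ℝ X] [FiniteDimensional ℝ X]
  [Nontrivial X] [NormedAddCommGroup F] [NormedSpace ℂ F] [FiniteDimensional ℂ F]
  [NormedAddCommGroup A] [NormedSpace ℂ A] [FiniteDimensional ℂ A]
  {O U : Set X} {ρ : Gp →* (X ≃ₗᵢ[ℝ] X)} {τF : Gp →* (F ≃L[ℂ] F)}
  {τA : Gp →* (A ≃L[ℂ] A)} {PF : X → F →L[ℂ] F} {sF : X → F} {PL : Fin 3 → X → A →L[ℂ] A}
  {PC : X → A →L[ℂ] A} {cb : A → A} {K₁ : ℕ}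

/-- a cutoff function: `1` at `r`, `0` on `[t, ∞)` -/
theorem exists_bump {r t : ℝ} (h2 : r < t) :
    ∃ θ : ℝ → ℝ, Continuous θ ∧ θ r = 1 ∧ (∀ x, 0 ≤ θ x) ∧ (∀ x, θ x ≤ 1) ∧
      ∀ x, t ≤ x → θ x = 0 := by
  refine ⟨fun x => max 0 (min 1 ((t - x) / (t - r))), ?_, ?_, fun x => le_max_left _ _,
    fun x => max_le zero_le_one (min_le_left _ _), fun x hx => ?_⟩
  · fun_prop
  · have : (t - r) / (t - r) = 1 := div_self (by linarith)
    simp [this]
  · have h3 : (t - x) / (t - r) ≤ 0 := div_nonpos_of_nonpos_of_nonneg (by linarith) (by linarith)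
    exact max_eq_left ((min_le_right _ _).trans h3)

omit [Nontrivial X] [FiniteDimensional ℂ F] [FiniteDimensional ℂ A] in
/-- the bijection `a ↦ (a.1, a.2 + om a.1 q)` of the labels -/
theorem IsCore.sum_lab (h : IsCore O U ρ τF τA PF sF PL PC cb K₁) (q : Q3)
    {L : Finset (Q3 × Q3)} (hmem : ∀ a, a ∈ L ↔ a ∈ Lab U ρ τA sF PL) {M : Type*}
    [AddCommMonoid M] (g : Q3 × Q3 → M) :
    ∑ a ∈ L, g a = ∑ a ∈ L, g (a.1, a.2 + om a.1 q) := by
  have h0 : ∀ v : Q3, om v 0 = 0 := fun v => by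
    have := om_add_right v 0 0
    simpa using this
  symm
  refine Finset.sum_bij' (fun a _ => (a.1, a.2 + om a.1 q)) (fun a _ => (a.1, a.2 + om a.1 (-q)))
    ?_ ?_ ?_ ?_ ?_
  · intro a ha
    exact (hmem _).2 (h.lab_move ((hmem a).1 ha) q)
  · intro a ha
    exact (hmem _).2 (h.lab_move ((hmem a).1 ha) (-q))
  · intro a ha
    refine Prod.ext rfl ?_
    change a.2 + om a.1 q + om a.1 (-q) = a.2
    rw [add_assoc, ← om_add_right, add_neg_cancel, h0, add_zero]
  · intro a ha
    refine Prod.ext rfl ?_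
    change a.2 + om a.1 (-q) + om a.1 q = a.2
    rw [add_assoc, ← om_add_right, neg_add_cancel, h0, add_zero]
  · intro a ha
    rfl

theorem IsCore.exists_glued (h : IsCore O U ρ τF τA PF sF PL PC cb K₁)
    (e : X ≃L[ℝ] (Fin (K₁ + 1) → ℂ)) {δ : ℝ} (hδ : IsDelta U ρ τA sF PL δ) {ε : ℝ} (hε : 0 < ε) :
    ∃ (r : ℝ) (f : X → F) (k : X → A), IsGlued O U ρ τF τA PF sF PL PC cb δ r ε f k := by
  classical
  obtain ⟨r, f', h', hr1, hr2, hsec, hcl, heq, hne⟩ := h.exists_family e hδ hε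
  obtain ⟨θ, hθc, hθr, hθ0, hθ1, hθt⟩ := exists_bump hr2
  have hfin : (Lab U ρ τA sF PL).Finite := Set.toFinite _
  set L : Finset (Q3 × Q3) := hfin.toFinset with hL
  have hmem : ∀ a, a ∈ L ↔ a ∈ Lab U ρ τA sF PL := fun a => hfin.mem_toFinset
  -- the weights
  set w : Q3 × Q3 → X → ℂ := fun a x => ((θ (dZ U ρ τA sF PL a x) : ℝ) : ℂ) with hw
  have hwc : ∀ a, Continuous (w a) := fun a =>
    Complex.continuous_ofReal.comp (hθc.comp (continuous_infDist_pt _))
  have hwle : ∀ a x, ‖w a x‖ ≤ 1 := fun a x => by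
    rw [hw]
    simp only [Complex.norm_real, Real.norm_eq_abs]
    rw [abs_of_nonneg (hθ0 _)]
    exact hθ1 _
  have hδ0 := hδ.pos
  -- a weight is nonzero only for one label
  have hone : ∀ x, ∀ a ∈ L, ∀ b ∈ L, dZ U ρ τA sF PL a x < 2 * δ / 3 → b ≠ a → w b x = 0 := by
    intro x a ha b hb hxa hba
    by_contra hwb
    have hxb : dZ U ρ τA sF PL b x < 2 * δ / 3 := by
      by_contra hn
      apply hwb
      rw [hw]
      simp only [hθt _ (not_lt.1 hn), Complex.ofReal_zero]
    exact hba (hδ.dis b ((hmem b).1 hb) a ((hmem a).1 ha) x (by linarith) (by linarith))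
  have hwne : ∀ a x, w a x ≠ 0 → dZ U ρ τA sF PL a x < 2 * δ / 3 := by
    intro a x hne'
    by_contra hn
    apply hne'
    rw [hw]
    simp only [hθt _ (not_lt.1 hn), Complex.ofReal_zero]
  have hwmove : ∀ (a : Q3 × Q3) (q : Q3) (x : X),
      w (a.1, a.2 + om a.1 q) (ρ (lift q) x) = w a x := by
    intro a q x
    rw [hw]
    simp only [h.dZ_move]
  refine ⟨r, fun x => sF x + ∑ a ∈ L, w a x • (f' a x - sF x),
    fun x => ∑ a ∈ L, w a x • cb (h' a x), hr1, hr2, ?_, ?_, ?_, ?_⟩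
  · -- section
    have hS : ∀ a ∈ L, IsSec O (dsum PF PC) (fun x => (f' a x, cb (h' a x))) := fun a ha =>
      isSec_cube h.cube (hsec a ((hmem a).1 ha))
    have hf' : ∀ a ∈ L, ContinuousOn (f' a) O := fun a ha => continuous_fst.comp_continuousOn (hS a ha).cont
    have hk' : ∀ a ∈ L, ContinuousOn (fun x => cb (h' a x)) O := fun a ha =>
      continuous_snd.comp_continuousOn (hS a ha).cont
    refine ⟨?_, ?_⟩
    · refine ContinuousOn.prodMk ?_ ?_
      · refine h.sec.cont.add (continuousOn_finsetSum _ fun a ha => ?_)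
        exact (hwc a).continuousOn.smul ((hf' a ha).sub h.sec.cont)
      · refine continuousOn_finsetSum _ fun a ha => ?_
        exact (hwc a).continuousOn.smul (hk' a ha)
    · intro x hx
      have h1 : ∀ a ∈ L, PF x (f' a x) = f' a x := fun a ha => congrArg Prod.fst ((hS a ha).mem x hx)
      have h2 : ∀ a ∈ L, PC x (cb (h' a x)) = cb (h' a x) := fun a ha =>
        congrArg Prod.snd ((hS a ha).mem x hx)
      refine Prod.ext ?_ ?_
      · change PF x (sF x + ∑ a ∈ L, w a x • (f' a x - sF x)) = _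
        rw [map_add, map_sum, h.sec.mem x hx]
        congr 1
        refine Finset.sum_congr rfl fun a ha => ?_
        rw [map_smul, map_sub, h1 a ha, h.sec.mem x hx]
      · change PC x (∑ a ∈ L, w a x • cb (h' a x)) = _
        rw [map_sum]
        refine Finset.sum_congr rfl fun a ha => ?_
        rw [map_smul, h2 a ha]
  · -- equivariance
    intro q x hx
    refine ⟨?_, ?_⟩
    · rw [h.sum_lab q hmem, h.secE (lift q) x hx, map_add, map_sum]
      congr 1
      refine Finset.sum_congr rfl fun a ha => ?_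
      rw [hwmove a q x, (heq a ((hmem a).1 ha) q x hx).1, map_smul, map_sub]
    · rw [h.sum_lab q hmem, map_sum]
      refine Finset.sum_congr rfl fun a ha => ?_
      rw [hwmove a q x, (heq a ((hmem a).1 ha) q x hx).2, map_smul]
  · -- closeness
    intro x hx
    rw [add_sub_cancel_left]
    by_cases hx0 : ∀ a ∈ L, w a x = 0
    · rw [Finset.sum_eq_zero fun a ha => by rw [hx0 a ha, zero_smul], norm_zero]
      exact hε.le
    · push Not at hx0
      obtain ⟨a, ha, hwa⟩ := hx0
      rw [Finset.sum_eq_single_of_mem a ha fun b hb hba => by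
        rw [hone x a ha b hb (hwne a x hwa) hba, zero_smul], norm_smul]
      calc ‖w a x‖ * ‖f' a x - sF x‖ ≤ 1 * ε :=
            mul_le_mul (hwle a x) (hcl a ((hmem a).1 ha) x hx) (norm_nonneg _) zero_le_one
        _ = ε := one_mul ε
  · -- the shells
    intro a ha
    have haL : a ∈ L := (hmem a).2 ha
    refine ⟨f' a, h' a, hsec a ha, fun x hxr => ?_⟩
    have hlt : dZ U ρ τA sF PL a x < 2 * δ / 3 := by rw [hxr]; exact hr2
    have hwa : w a x = 1 := by
      rw [hw]
      simp only [hxr, hθr, Complex.ofReal_one]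
    have hxU : x ∈ closure U := subset_closure (hδ.sub a ha x (by linarith))
    refine ⟨?_, ?_, hne a ha x hxU hxr⟩
    · rw [Finset.sum_eq_single_of_mem a haL fun b hb hba => by
        rw [hone x a haL b hb hlt hba, zero_smul], hwa, one_smul, add_sub_cancel]
    · rw [Finset.sum_eq_single_of_mem a haL fun b hb hba => by
        rw [hone x a haL b hb hlt hba, zero_smul], hwa, one_smul]

end EMU
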