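import Mathlib

/-!
# MP_9aab3b_gt, part C: the group of order 729 (definitions)

`Gp = Q × N`, `Q = N = F_3^3`, `(q, n) (q', n') = (q + q', n + n' + β(q, q'))`, `β(q, q')_i = q_{i+1} q'_{i+2}`: the free nilpotent group of class 2 and
exponent 3 on three generators.
-/

set_option autoImplicit false

namespace EMU

/-- `F_3^3` -/
abbrev Q3 : Type := Fin 3 → ZMod 3

/-- the cocycle -/
def beta (q q' : Q3) : Q3 := fun i => q (i + 1) * q' (i + 2)

/-- the commutator form: the cross product -/
def om (q q' : Q3) : Q3 := fun i => q (i + 1) * q' (i + 2) - q' (i + 1) * q (i + 2)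

/-- the group of order 729 -/
@[ext] structure Gp : Type where
  /-- the image in the quotient by the centre -/
  q : Q3
  /-- the central coordinate -/
  n : Q3
deriving DecidableEq

namespace Gp

instance : Mul Gp := ⟨fun x y => ⟨x.q + y.q, x.n + y.n + beta x.q y.q⟩⟩
instance : One Gp := ⟨⟨0, 0⟩⟩
instance : Inv Gp := ⟨fun x => ⟨-x.q, -x.n + beta x.q x.q⟩⟩

theorem mul_def (x y : Gp) : x * y = ⟨x.q + y.q, x.n + y.n + beta x.q y.q⟩ := rfl
theorem one_def : (1 : Gp) = ⟨0, 0⟩ := rfl
theorem inv_def (x : Gp) : x⁻¹ = ⟨-x.q, -x.n + beta x.q x.q⟩ := rfl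

instance : Group Gp :=
  Group.ofLeftAxioms
    (fun x y z => by
      simp only [mul_def, mk.injEq]
      constructor
      · abel
      · funext i
        simp only [Pi.add_apply, beta]
        ring)
    (fun x => by
      simp only [mul_def, one_def]
      ext i
      · simp
      · simp [beta])
    (fun x => by
      simp only [mul_def, one_def, inv_def, mk.injEq]
      constructor
      · simp
      · funext i
        simp only [Pi.add_apply, Pi.neg_apply, beta, Pi.zero_apply]
        ring)

/-- `Gp` as a set is `Q × N` -/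
def equivProd : Gp ≃ Q3 × Q3 where
  toFun x := (x.q, x.n)
  invFun y := ⟨y.1, y.2⟩
  left_inv _ := rfl
  right_inv _ := rfl

instance : Fintype Gp := Fintype.ofEquiv _ equivProd.symm

theorem card_eq : Fintype.card Gp = 729 := by
  rw [Fintype.card_congr equivProd, Fintype.card_prod, Fintype.card_fun]
  simp [ZMod.card]

end Gp

/-- the lift of `q` -/
def lift (q : Q3) : Gp := ⟨q, 0⟩

/-- central elements -/
def cen (n : Q3) : Gp := ⟨0, n⟩

/-- a primitive cube root of unity -/
noncomputable def zt : ℂ := Complex.exp (2 * Real.pi * Complex.I / 3)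

/-- representatives of the non zero vectors modulo `±1` -/
def IsRep (v : Q3) : Prop := v 0 = 1 ∨ (v 0 = 0 ∧ v 1 = 1) ∨ (v 0 = 0 ∧ v 1 = 0 ∧ v 2 = 1)

end EMU
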