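import Pool.Agent.Lib.EMU.C.Grp

/-!
# MP_9aab3b_gt, module C.GrpL: elementary facts about the group of order 729

PROOF. Multiplication formulas: `Gp.ext`, `Gp.mul_def`, `Gp.inv_def`, `funext`, `ring` (`beta`, `om` are explicit; for `conj_lift` compute
`lift v * lift q = lift q * (lift v * cen (om v q))`). `pow_three`: `q + q + q = 0` in `(ZMod 3)^3`, and the central coordinate of `g^3` is
`3 n + beta q q + beta (2 q) q = 3 (n + beta q q) = 0`.
`om_eq_zero`: `decide` over `Q3 × Q3` (729 cases; `revert`, `decide`; if too slow argue with coordinates: some `q i ≠ 0`, then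
`q' = (q' i / q i) • q`). `rep_exists`, `rep_unique`: `decide` or cases on the coordinates.
`nine_dvd_sum`: the subgroup `H = {w | ∑ v_j w_j = 0}` equals `{om v q | q}` (for `v ≠ 0`; both have 9 elements; `decide` over `v`), and `f` is constant on
its cosets. Choose `i` with `v i ≠ 0`; every `ℓ` is uniquely `Pi.single i c + w` with `c : ZMod 3`, `w ∈ H`, so
`∑ ℓ, f ℓ = ∑ c, ∑ w ∈ H, f (Pi.single i c + w) = ∑ c, 9 * f (Pi.single i c)`.
`zt` lemmas: `zt ^ 3 = exp (2 π i) = 1`, `zt` is a primitive cube root of unity (`Complex.isPrimitiveRoot_exp 3`), and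
`IsPrimitiveRoot.eq_pow_of_pow_eq_one`, `IsPrimitiveRoot.pow_eq_one_iff_dvd`; `ZMod.val_add`, `pow_mod`-type argument.
-/

set_option autoImplicit false

namespace EMU

private theorem f3 {a : ZMod 3} : a + a + a = 0 := by
  revert a; decide

private theorem q3_ext {v w : Q3} (h0 : v 0 = w 0) (h1 : v 1 = w 1) (h2 : v 2 = w 2) : v = w := by
  funext i
  fin_cases i
  · exact h0
  · exact h1
  · exact h2

private theorem om0 (v q : Q3) : om v q 0 = v 1 * q 2 - q 1 * v 2 := rfl
private theorem om1 (v q : Q3) : om v q 1 = v 2 * q 0 - q 2 * v 0 := rfl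
private theorem om2 (v q : Q3) : om v q 2 = v 0 * q 1 - q 0 * v 1 := rfl

private theorem nine0 {v : Q3} (hv : v 0 ≠ 0) (f : Q3 → ℤ) (hf : ∀ l q, f (l + om v q) = f l) :
    (9 : ℤ) ∣ ∑ l, f l := by
  classical
  have key : ∀ l : Q3, f l = f ![l 0 + (v 1 * l 1 + v 2 * l 2) / v 0, 0, 0] := by
    intro l
    rw [← hf l ![0, - l 2 / v 0, l 1 / v 0]]
    congr 1
    apply q3_ext
    · simp only [Pi.add_apply, om0]
      simp
      field_simp
      ring
    · simp only [Pi.add_apply, om1]
      simp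
      field_simp
      ring
    · simp only [Pi.add_apply, om2]
      simp
      field_simp
      ring
  have hs : ∑ l, f l = ∑ r : Fin 2 → ZMod 3, ∑ c : ZMod 3, f ![c, 0, 0] := by
    rw [← (Fin.consEquiv (fun _ : Fin 3 => ZMod 3)).sum_comp, Fintype.sum_prod_type_right]
    apply Finset.sum_congr rfl
    intro r _
    rw [← Equiv.sum_comp (Equiv.addRight ((v 1 * r 0 + v 2 * r 1) / v 0)) (fun c => f ![c, 0, 0])]
    apply Finset.sum_congr rfl
    intro c _
    rw [key]
    rfl
  rw [hs, Finset.sum_const]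
  have hc : (Finset.univ : Finset (Fin 2 → ZMod 3)).card = 9 := by
    rw [Finset.card_univ, Fintype.card_fun]
    simp [ZMod.card]
  rw [hc]
  exact ⟨_, by rw [nsmul_eq_mul]; rfl⟩

private theorem zt_prim : IsPrimitiveRoot zt 3 := by
  have h := Complex.isPrimitiveRoot_exp 3 (by norm_num)
  have e : zt = Complex.exp (2 * Real.pi * Complex.I / ((3 : ℕ) : ℂ)) := by
    unfold zt
    norm_num
  rw [e]
  exact h


theorem lift_mul (q q' : Q3) : lift q * lift q' = lift (q + q') * cen (beta q q') := by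
  ext i
  · simp [lift, cen, Gp.mul_def]
  · simp [lift, cen, Gp.mul_def, beta]

theorem cen_mul (n n' : Q3) : cen n * cen n' = cen (n + n') := by
  ext i
  · simp [cen, Gp.mul_def]
  · simp [cen, Gp.mul_def, beta]

theorem cen_comm (n : Q3) (g : Gp) : cen n * g = g * cen n := by
  ext i
  · simp [cen, Gp.mul_def]
  · simp [cen, Gp.mul_def, beta, add_comm]

theorem eq_lift_mul_cen (g : Gp) : g = lift g.q * cen g.n := by
  ext i
  · simp [lift, cen, Gp.mul_def]
  · simp [lift, cen, Gp.mul_def, beta]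

theorem conj_lift (v q : Q3) : lift v * lift q = lift q * lift v * cen (om v q) := by
  ext i
  · simp [lift, cen, Gp.mul_def, add_comm]
  · simp [lift, cen, Gp.mul_def, beta, om]

theorem pow_three (g : Gp) : g ^ 3 = 1 := by
  ext i
  · rw [show g ^ 3 = g * g * g from by rw [pow_succ, pow_two]]
    simp only [Gp.mul_def, Gp.one_def, Pi.add_apply, Pi.zero_apply]
    exact f3
  · rw [show g ^ 3 = g * g * g from by rw [pow_succ, pow_two]]
    simp only [Gp.mul_def, Gp.one_def, Pi.add_apply, Pi.zero_apply, beta]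
    have h1 := @f3 (g.n i)
    have h2 := @f3 (g.q (i + 1) * g.q (i + 2))
    linear_combination h1 + h2

theorem om_add_left (v w q : Q3) : om (v + w) q = om v q + om w q := by
  funext i
  simp only [om, Pi.add_apply]
  ring

theorem om_add_right (v q q' : Q3) : om v (q + q') = om v q + om v q' := by
  funext i
  simp only [om, Pi.add_apply]
  ring

theorem om_self (v : Q3) : om v v = 0 := by
  funext i
  simp only [om, Pi.zero_apply]
  ring

theorem om_eq_zero {q q' : Q3} (h : om q q' = 0) (hq : q ≠ 0) : ∃ c : ZMod 3, q' = c • q := by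
  have h0 : q 1 * q' 2 - q' 1 * q 2 = 0 := congrFun h 0
  have h1 : q 2 * q' 0 - q' 2 * q 0 = 0 := congrFun h 1
  have h2 : q 0 * q' 1 - q' 0 * q 1 = 0 := congrFun h 2
  by_cases a0 : q 0 = 0
  · by_cases a1 : q 1 = 0
    · by_cases a2 : q 2 = 0
      · exact absurd (q3_ext a0 a1 a2) hq
      · refine ⟨q' 2 / q 2, ?_⟩
        apply q3_ext
        · show q' 0 = q' 2 / q 2 * q 0
          rw [a0] at h1 ⊢
          have : q 2 * q' 0 = 0 := by linear_combination h1
          rcases mul_eq_zero.1 this with hh | hh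
          · exact absurd hh a2
          · rw [hh]; ring
        · show q' 1 = q' 2 / q 2 * q 1
          rw [a1] at h0 ⊢
          have : q' 1 * q 2 = 0 := by linear_combination -h0
          rcases mul_eq_zero.1 this with hh | hh
          · rw [hh]; ring
          · exact absurd hh a2
        · show q' 2 = q' 2 / q 2 * q 2
          field_simp
    · refine ⟨q' 1 / q 1, ?_⟩
      apply q3_ext
      · show q' 0 = q' 1 / q 1 * q 0
        field_simp
        linear_combination -h2
      · show q' 1 = q' 1 / q 1 * q 1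
        field_simp
      · show q' 2 = q' 1 / q 1 * q 2
        field_simp
        linear_combination h0
  · refine ⟨q' 0 / q 0, ?_⟩
    apply q3_ext
    · show q' 0 = q' 0 / q 0 * q 0
      field_simp
    · show q' 1 = q' 0 / q 0 * q 1
      field_simp
      linear_combination h2
    · show q' 2 = q' 0 / q 0 * q 2
      field_simp
      linear_combination -h1

theorem rep_ne_zero {v : Q3} (h : IsRep v) : v ≠ 0 := by
  intro hv
  subst hv
  rcases h with h | ⟨_, h⟩ | ⟨_, _, h⟩
  · exact zero_ne_one h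
  · exact zero_ne_one h
  · exact zero_ne_one h

theorem rep_exists {v : Q3} (h : v ≠ 0) : ∃ c : ZMod 3, c ≠ 0 ∧ IsRep (c • v) := by
  by_cases a0 : v 0 = 0
  · by_cases a1 : v 1 = 0
    · by_cases a2 : v 2 = 0
      · exact absurd (q3_ext a0 a1 a2) h
      · refine ⟨(v 2)⁻¹, inv_ne_zero a2, Or.inr (Or.inr ⟨?_, ?_, ?_⟩)⟩
        · show (v 2)⁻¹ * v 0 = 0
          rw [a0, mul_zero]
        · show (v 2)⁻¹ * v 1 = 0
          rw [a1, mul_zero]
        · exact inv_mul_cancel₀ a2
    · refine ⟨(v 1)⁻¹, inv_ne_zero a1, Or.inr (Or.inl ⟨?_, ?_⟩)⟩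
      · show (v 1)⁻¹ * v 0 = 0
        rw [a0, mul_zero]
      · exact inv_mul_cancel₀ a1
  · exact ⟨(v 0)⁻¹, inv_ne_zero a0, Or.inl (inv_mul_cancel₀ a0)⟩

theorem rep_unique {v v' : Q3} (h : IsRep v) (h' : IsRep v') (ho : om v v' = 0) : v = v' := by
  obtain ⟨c, hc⟩ := om_eq_zero ho (rep_ne_zero h)
  have h'' := rep_ne_zero h'
  have e : ∀ i, v' i = c * v i := fun i => congrFun hc i
  have hc0 : c ≠ 0 := by
    intro h0
    apply h''
    rw [hc, h0, zero_smul]
  have h1 : c = 1 := by
    rcases h with h | ⟨h0, h⟩ | ⟨h0, h1, h⟩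
    · have e0 := e 0
      rw [h, mul_one] at e0
      rcases h' with g | ⟨g, _⟩ | ⟨g, _, _⟩
      · exact e0.symm.trans g
      · exact absurd (e0.symm.trans g) hc0
      · exact absurd (e0.symm.trans g) hc0
    · have e0 := e 0
      have e1 := e 1
      rw [h0, mul_zero] at e0
      rw [h, mul_one] at e1
      rcases h' with g | ⟨_, g⟩ | ⟨_, g, _⟩
      · exact absurd (e0.symm.trans g) zero_ne_one
      · exact e1.symm.trans g
      · exact absurd (e1.symm.trans g) hc0
    · have e0 := e 0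
      have e1 := e 1
      have e2 := e 2
      rw [h0, mul_zero] at e0
      rw [h1, mul_zero] at e1
      rw [h, mul_one] at e2
      rcases h' with g | ⟨_, g⟩ | ⟨_, _, g⟩
      · exact absurd (e0.symm.trans g) zero_ne_one
      · exact absurd (e1.symm.trans g) zero_ne_one
      · exact e2.symm.trans g
  rw [hc, h1, one_smul]

theorem nine_dvd_sum {v : Q3} (hv : v ≠ 0) (f : Q3 → ℤ) (hf : ∀ l q, f (l + om v q) = f l) :
    (9 : ℤ) ∣ ∑ l, f l := by
  obtain ⟨i, hi⟩ : ∃ i, v i ≠ 0 := by
    by_contra hcon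
    push Not at hcon
    exact hv (funext hcon)
  have e := Equiv.sum_comp (Equiv.arrowCongr (Equiv.addRight (-i) : Fin 3 ≃ Fin 3) (Equiv.refl (ZMod 3))).symm f
  rw [← e]
  have hs : ∀ (l : Q3) (j : Fin 3), (Equiv.arrowCongr (Equiv.addRight (-i) : Fin 3 ≃ Fin 3) (Equiv.refl (ZMod 3))).symm l j
      = l (j + (-i)) := fun l j => rfl
  apply nine0 (v := fun j => v (j + i))
  · show v (0 + i) ≠ 0
    rw [zero_add]
    exact hi
  · intro l q
    have : (Equiv.arrowCongr (Equiv.addRight (-i) : Fin 3 ≃ Fin 3) (Equiv.refl (ZMod 3))).symm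
        (l + om (fun j => v (j + i)) q)
        = (Equiv.arrowCongr (Equiv.addRight (-i) : Fin 3 ≃ Fin 3) (Equiv.refl (ZMod 3))).symm l
          + om v (fun j => q (j + (-i))) := by
      funext j
      rw [hs, Pi.add_apply, Pi.add_apply, hs]
      show l (j + -i) + (v (j + -i + 1 + i) * q (j + -i + 2) - q (j + -i + 1) * v (j + -i + 2 + i))
        = l (j + -i) + (v (j + 1) * q (j + 2 + -i) - q (j + 1 + -i) * v (j + 2))
      have a1 : j + -i + 1 + i = j + 1 := by abel
      have a2 : j + -i + 2 = j + 2 + -i := by abel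
      have a3 : j + -i + 1 = j + 1 + -i := by abel
      have a4 : j + -i + 2 + i = j + 2 := by abel
      rw [a1, a4, a2, a3]
    rw [this, hf]

/-- `lift (c • v)` is a power of `lift v` times a central element -/
theorem lift_smul (c : ZMod 3) (v : Q3) : ∃ n : Q3, lift (c • v) = lift v ^ c.val * cen n := by
  fin_cases c
  · refine ⟨0, ?_⟩
    show lift ((0 : ZMod 3) • v) = lift v ^ 0 * cen 0
    ext i
    · simp [lift, cen, Gp.mul_def, Gp.one_def]
    · simp [lift, cen, Gp.mul_def, Gp.one_def, beta]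
  · refine ⟨0, ?_⟩
    show lift ((1 : ZMod 3) • v) = lift v ^ 1 * cen 0
    ext i
    · simp [lift, cen, Gp.mul_def]
    · simp [lift, cen, Gp.mul_def, beta]
  · refine ⟨-beta v v, ?_⟩
    show lift ((2 : ZMod 3) • v) = lift v ^ 2 * cen (-beta v v)
    rw [pow_two]
    ext i
    · simp only [lift, cen, Gp.mul_def, Pi.add_apply, Pi.smul_apply, Pi.zero_apply, smul_eq_mul]
      ring
    · simp only [lift, cen, Gp.mul_def, Pi.add_apply, Pi.zero_apply, Pi.neg_apply, beta]
      ring

theorem zt_pow_three : zt ^ 3 = 1 := by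
  exact zt_prim.pow_eq_one

theorem zt_ne_zero : zt ≠ 0 := by
  exact Complex.exp_ne_zero _

theorem zt_pow_add (a b : ZMod 3) : zt ^ (a + b).val = zt ^ a.val * zt ^ b.val := by
  rw [← pow_add, ZMod.val_add]
  conv_rhs => rw [← Nat.div_add_mod (a.val + b.val) 3, pow_add, pow_mul, zt_pow_three, one_pow, one_mul]

theorem zt_pow_eq_one {a : ZMod 3} (h : zt ^ a.val = 1) : a = 0 := by
  have h1 := (zt_prim.pow_eq_one_iff_dvd _).1 h
  have h2 : a.val = 0 := Nat.eq_zero_of_dvd_of_lt h1 (ZMod.val_lt a)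
  exact (ZMod.val_eq_zero a).1 h2

theorem exists_zt_pow {c : ℂ} (h : c ^ 3 = 1) : ∃ a : ZMod 3, c = zt ^ a.val := by
  obtain ⟨i, hi, rfl⟩ := zt_prim.eq_pow_of_pow_eq_one h
  exact ⟨(i : ZMod 3), by rw [ZMod.val_natCast_of_lt hi]⟩

end EMU
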