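import Pool.Agent.Lib.EMU.C.Defs

/-!
# MP_9aab3b_gt, module C.Line: isotropy groups and labels

PROOF. Let `h : IsCore …`. For `x ∈ O` the fibre `L_i = {a | PL i x a = a}` is a complex line (rank one): `∃ a₀ ≠ 0` in it and every element is a
multiple of `a₀`. If `ρ g x = x` then `τA g` maps the fibre to itself (`eL.eqv` : `PL i (ρ g x) (τA g v) = τA g (PL i x v)`), so
`τA g a₀ = c • a₀`; as `g ^ 3 = 1` (`pow_three`), `c ^ 3 = 1` (`τA` is a homomorphism), so `c = zt ^ (l i).val` (`exists_zt_pow`).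
* `det_pos`: `D = det (ρ g)` satisfies `D ^ 3 = det (ρ (g^3)) = 1`, so `D = 1` (real).
* `NC`: if `PC x v = v`: the fibre of `PC` at `x` is a line containing `cb a₀ ≠ 0` (`a₀ ≠ 0` in the fibre of `PL 0`; `inj`, `mem`), so `v = c • cb a₀`, and
  `τA (cen n) (cb a₀) = cb (τA (cen n) a₀) = cb (zt ^ (n 0).val • a₀) = zt ^ (3 (n 0).val) • cb a₀ = cb a₀` (`cubeE`, `NL`, `hom`, `zt_pow_three`).
* `isotropy`: `τA (lift q) a₀ = c • a₀`, `τA (lift q') a₀ = c' • a₀` for the fibre of `PL i`; `conj_lift`: `lift q * lift q' = lift q' * lift q * cen (om q q')`; apply both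
  sides to `a₀`: `c c' = c' c zt ^ (om q q' i).val`, so `om q q' i = 0` (`zt_pow_eq_one`), for all `i`.
* `Zs_cover`: `rep_exists`: `v = c • q` is a representative; `lift v = lift q ^ c.val * cen n` (`lift_smul`), so `ρ (lift v) x = x` (`ρN`). The label is given by the
  first paragraph for each `i`.
* `Zs_disjoint`: a common point `x` is fixed by `lift v` and `lift v'`; `isotropy` and `rep_unique`: `v = v'`; then the scalars agree on `a₀ ≠ 0`, so `l i = l' i`
  (`zt ^ a = zt ^ b → a = b` by `zt_pow_add`, `zt_pow_eq_one`).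
* `Zs_move`: `ρ (lift v) (ρ (lift q) x) = ρ (lift q) (ρ (lift v) x)` because `conj_lift` and `ρN`; `closure U` is invariant (`U` is, `ρ g` is a homeomorphism);
  `sF (ρ (lift q) x) = τF (lift q) (sF x) = 0`. If `PL i (ρ (lift q) x) a = a` put `a' = (τA (lift q)).symm a`, in the fibre at `x`; then
  `τA (lift v) a = τA (lift v) (τA (lift q) a') = τA (lift q) (τA (lift v) (τA (cen (om v q)) a')) = zt ^ … • zt ^ … • a`.
* `Zs_image`: `⊆` by `Zs_move`; `⊇`: apply `Zs_move` with `-q` to `y` and `x = ρ (lift (-q)) y`; `lift q * lift (-q)` is central, `ρN`; `om v (-q) = - om v q`.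
* `Zs_compact`: closed subset of the compact set `closure U`: `sF`, `ρ` continuous on `closure U ⊆ O`; the last condition is equivalent to
  `∀ i a, τA (lift v) (PL i x a) = zt ^ (l i).val • PL i x a` (idempotent), closed since `PL i` is continuous on `O`.
* `Zs_sub`: `sF ≠ 0` on the frontier and `closure U = U ∪ frontier U`.
-/

set_option autoImplicit false

open Set Metric Topology

namespace EMU

variable {X F A : Type*} [NormedAddCommGroup X] [NormedSpace ℝ X] [FiniteDimensional ℝ X]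
  [NormedAddCommGroup F] [NormedSpace ℂ F] [NormedAddCommGroup A] [NormedSpace ℂ A]
  {O U : Set X} {ρ : Gp →* (X ≃ₗᵢ[ℝ] X)} {τF : Gp →* (F ≃L[ℂ] F)}
  {τA : Gp →* (A ≃L[ℂ] A)} {PF : X → F →L[ℂ] F} {sF : X → F} {PL : Fin 3 → X → A →L[ℂ] A}
  {PC : X → A →L[ℂ] A} {cb : A → A} {K₁ : ℕ}

omit [FiniteDimensional ℝ X] in
/-- every element of a fibre of a line bundle is a multiple of a nonzero element -/
private theorem line_gen {P : X → A →L[ℂ] A} (hP : IsBun O P 1) {x : X} (hx : x ∈ O) :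
    ∃ a₀ : A, a₀ ≠ 0 ∧ P x a₀ = a₀ ∧ ∀ v, P x v = v → ∃ c : ℂ, v = c • a₀ := by
  obtain ⟨⟨w, hw⟩, hw0, hgen⟩ := finrank_eq_one_iff'.1 (hP.rank x hx)
  obtain ⟨u, hu⟩ := hw
  have hu' : P x u = w := hu
  refine ⟨w, fun h => hw0 (Subtype.ext h), ?_, fun v hv => ?_⟩
  · rw [← hu', hP.idem x hx]
  · obtain ⟨c, hc⟩ := hgen ⟨v, v, hv⟩
    exact ⟨c, (congrArg Subtype.val hc).symm⟩

private theorem tA_mul (g g' : Gp) (a : A) : τA (g * g') a = τA g (τA g' a) := by
  rw [map_mul]; rfl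

omit [FiniteDimensional ℝ X] in
private theorem rho_mul (g g' : Gp) (x : X) : ρ (g * g') x = ρ g (ρ g' x) := by
  rw [map_mul]; rfl

omit [FiniteDimensional ℝ X] in
private theorem rho_cen (h : IsCore O U ρ τF τA PF sF PL PC cb K₁) (n : Q3) (x : X) :
    ρ (cen n) x = x := by
  rw [h.ρN]; rfl

private theorem zt_inj {a b : ZMod 3} (h : zt ^ a.val = zt ^ b.val) : a = b := by
  have h1 := zt_pow_add (a - b) b
  rw [sub_add_cancel, h] at h1
  have h2 : zt ^ b.val ≠ 0 := pow_ne_zero _ zt_ne_zero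
  have h3 : zt ^ (a - b).val = 1 := mul_right_cancel₀ h2 (by rw [one_mul]; exact h1.symm)
  exact sub_eq_zero.1 (zt_pow_eq_one h3)

omit [FiniteDimensional ℝ X] in
private theorem fix_fibre (h : IsCore O U ρ τF τA PF sF PL PC cb K₁) (i : Fin 3) {x : X}
    (hx : x ∈ O) {g : Gp} (hg : ρ g x = x) {a : A} (ha : PL i x a = a) :
    PL i x (τA g a) = τA g a := by
  have h1 := (h.eL i).eqv g x hx a
  rwa [hg, ha] at h1

omit [FiniteDimensional ℝ X] in
private theorem exists_label (h : IsCore O U ρ τF τA PF sF PL PC cb K₁) (i : Fin 3) {x : X}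
    (hx : x ∈ O) {g : Gp} (hg : ρ g x = x) :
    ∃ l : ZMod 3, ∀ a, PL i x a = a → τA g a = zt ^ l.val • a := by
  obtain ⟨a₀, ha0, haf, hgen⟩ := line_gen (h.bL i) hx
  obtain ⟨c, hc⟩ := hgen _ (fix_fibre h i hx hg haf)
  have hc3 : c ^ 3 = 1 := by
    have h1 : τA (g ^ 3) a₀ = c ^ 3 • a₀ := by
      have h2 : g ^ 3 = g * (g * g) := by rw [pow_succ, pow_two, mul_assoc]
      rw [h2, tA_mul, tA_mul, hc, map_smul, hc, map_smul, map_smul, hc, smul_smul, smul_smul]
      congr 1; ring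
    rw [pow_three g, map_one] at h1
    have h2 : (c ^ 3 - 1) • a₀ = 0 := by
      rw [sub_smul, one_smul, ← h1]
      exact sub_self _
    rcases smul_eq_zero.1 h2 with h3 | h3
    · exact sub_eq_zero.1 h3
    · exact absurd h3 ha0
  obtain ⟨l, hl⟩ := exists_zt_pow hc3
  refine ⟨l, fun a ha => ?_⟩
  obtain ⟨d, hd⟩ := hgen a ha
  rw [hd, map_smul, hc, hl, smul_comm]

theorem IsCore.det_pos (h : IsCore O U ρ τF τA PF sF PL PC cb K₁) (g : Gp) :
    0 < (((ρ g).toContinuousLinearEquiv : X ≃L[ℝ] X) : X →L[ℝ] X).det := by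
  obtain ⟨D, hD⟩ : ∃ D : ℝ, D = (((ρ g).toContinuousLinearEquiv : X ≃L[ℝ] X) : X →L[ℝ] X).det :=
    ⟨_, rfl⟩
  rw [← hD]
  have h3 : D ^ 3 = 1 := by
    rw [hD]
    unfold ContinuousLinearMap.det
    rw [← map_pow]
    have h1 : ((((ρ g).toContinuousLinearEquiv : X ≃L[ℝ] X) : X →L[ℝ] X) : X →ₗ[ℝ] X) ^ 3 = 1 := by
      ext x
      have h2 : g ^ 3 = g * (g * g) := by rw [pow_succ, pow_two, mul_assoc]
      have h4 : ρ g (ρ g (ρ g x)) = x := by
        rw [← rho_mul, ← rho_mul, mul_assoc, ← h2, pow_three g, map_one]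
        rfl
      exact h4
    rw [h1, map_one]
  rcases lt_or_ge 0 D with h4 | h4
  · exact h4
  · have h5 : D ^ 3 ≤ 0 := Odd.pow_nonpos (by decide) h4
    rw [h3] at h5
    linarith

theorem IsCore.NC (h : IsCore O U ρ τF τA PF sF PL PC cb K₁) {x : X} (hx : x ∈ O) {v : A}
    (hv : PC x v = v) (n : Q3) : τA (cen n) v = v := by
  obtain ⟨a₀, ha0, haf, -⟩ := line_gen (h.bL 0) hx
  obtain ⟨b₀, hb0, hbf, hgen⟩ := line_gen h.bC hx
  have h1 : cb a₀ ≠ 0 := fun h2 => ha0 (h.cube.inj a₀ h2)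
  obtain ⟨d, hd⟩ := hgen _ (h.cube.mem x hx a₀ haf)
  obtain ⟨e, he⟩ := hgen v hv
  have hd0 : d ≠ 0 := by
    rintro rfl
    rw [zero_smul] at hd
    exact h1 hd
  have h2 : v = (e / d) • cb a₀ := by
    rw [hd, smul_smul, div_mul_cancel₀ _ hd0, he]
  have h3 : τA (cen n) (cb a₀) = cb a₀ := by
    rw [← h.cubeE, h.NL 0 x hx a₀ haf n, h.cube.hom, ← pow_mul, mul_comm, pow_mul, zt_pow_three,
      one_pow, one_smul]
  rw [h2, map_smul, h3]

theorem IsCore.isotropy (h : IsCore O U ρ τF τA PF sF PL PC cb K₁) {x : X} (hx : x ∈ O) {q q' : Q3}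
    (hq : ρ (lift q) x = x) (hq' : ρ (lift q') x = x) : om q q' = 0 := by
  funext i
  obtain ⟨a₀, ha0, haf, -⟩ := line_gen (h.bL i) hx
  obtain ⟨l, hl⟩ := exists_label h i hx hq
  obtain ⟨l', hl'⟩ := exists_label h i hx hq'
  have h1 : τA (lift q * lift q') a₀ = zt ^ l'.val • zt ^ l.val • a₀ := by
    rw [tA_mul, hl' a₀ haf, map_smul, hl a₀ haf]
  have h2 : τA (lift q * lift q') a₀ =
      zt ^ (om q q' i).val • zt ^ l'.val • zt ^ l.val • a₀ := by
    rw [conj_lift, tA_mul, tA_mul, h.NL i x hx a₀ haf, map_smul, map_smul, hl a₀ haf, map_smul,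
      hl' a₀ haf, smul_comm (zt ^ l.val) (zt ^ l'.val)]
  rw [h1] at h2
  have h3 : zt ^ l'.val • zt ^ l.val • a₀ ≠ 0 :=
    smul_ne_zero (pow_ne_zero _ zt_ne_zero) (smul_ne_zero (pow_ne_zero _ zt_ne_zero) ha0)
  have h4 : (zt ^ (om q q' i).val - 1) • (zt ^ l'.val • zt ^ l.val • a₀) = 0 := by
    rw [sub_smul, one_smul, ← h2, sub_self]
  rcases smul_eq_zero.1 h4 with h5 | h5
  · exact zt_pow_eq_one (sub_eq_zero.1 h5)
  · exact absurd h5 h3

theorem IsCore.Zs_cover (h : IsCore O U ρ τF τA PF sF PL PC cb K₁) {x : X} (hx : x ∈ closure U)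
    (h0 : sF x = 0) {q : Q3} (hq : q ≠ 0) (hqx : ρ (lift q) x = x) :
    ∃ a ∈ Lab U ρ τA sF PL, x ∈ Zs U ρ τA sF PL a.1 a.2 := by
  obtain ⟨c, hc, hrep⟩ := rep_exists hq
  obtain ⟨n, hn⟩ := lift_smul c q
  have hxO := h.clU hx
  have hfix : ρ (lift (c • q)) x = x := by
    rw [hn, rho_mul, rho_cen h]
    have h1 : ∀ k : ℕ, ρ (lift q ^ k) x = x := by
      intro k
      induction k with
      | zero => rw [pow_zero, map_one]; rfl
      | succ k ih => rw [pow_succ, rho_mul, hqx, ih]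
    exact h1 _
  choose l hl using fun i : Fin 3 => exists_label h i hxO hfix
  have hmem : x ∈ Zs U ρ τA sF PL (c • q) l := ⟨hx, h0, hfix, hl⟩
  exact ⟨(c • q, l), ⟨hrep, x, hmem⟩, hmem⟩

theorem IsCore.Zs_disjoint (h : IsCore O U ρ τF τA PF sF PL PC cb K₁) {v l v' l' : Q3}
    (hv : IsRep v) (hv' : IsRep v') (hne : (v, l) ≠ (v', l')) :
    Disjoint (Zs U ρ τA sF PL v l) (Zs U ρ τA sF PL v' l') := by
  rw [Set.disjoint_left]
  rintro x ⟨hx, -, hfix, hlab⟩ ⟨-, -, hfix', hlab'⟩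
  have hxO := h.clU hx
  have h1 : v = v' := rep_unique hv hv' (h.isotropy hxO hfix hfix')
  subst h1
  refine hne ?_
  have h2 : l = l' := by
    funext i
    obtain ⟨a₀, ha0, haf, -⟩ := line_gen (h.bL i) hxO
    have h3 := hlab i a₀ haf
    rw [hlab' i a₀ haf] at h3
    have h4 : (zt ^ (l' i).val - zt ^ (l i).val) • a₀ = 0 := by
      rw [sub_smul, h3, sub_self]
    rcases smul_eq_zero.1 h4 with h5 | h5
    · exact (zt_inj (sub_eq_zero.1 h5)).symm
    · exact absurd h5 ha0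
  rw [h2]

theorem IsCore.Zs_move (h : IsCore O U ρ τF τA PF sF PL PC cb K₁) {v l : Q3} {x : X}
    (hx : x ∈ Zs U ρ τA sF PL v l) (q : Q3) :
    ρ (lift q) x ∈ Zs U ρ τA sF PL v (l + om v q) := by
  obtain ⟨hxc, h0, hfix, hlab⟩ := hx
  have hxO := h.clU hxc
  refine ⟨?_, ?_, ?_, ?_⟩
  · exact map_mem_closure (ρ (lift q)).continuous hxc fun y hy => h.invU (lift q) y hy
  · rw [h.secE (lift q) x hxO, h0, map_zero]
  · rw [← rho_mul, conj_lift, rho_mul, rho_cen h, rho_mul, hfix]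
  · intro i a ha
    obtain ⟨a', ha'⟩ : ∃ a', τA (lift q) a' = a := (τA (lift q)).surjective a
    have h1 : PL i x a' = a' := by
      have h2 := (h.eL i).eqv (lift q) x hxO a'
      rw [ha', ha, ← ha'] at h2
      exact ((τA (lift q)).injective h2).symm
    have h3 : τA (lift v) a = τA (lift v * lift q) a' := by rw [tA_mul, ha']
    rw [h3, conj_lift, tA_mul, tA_mul, h.NL i x hxO a' h1, map_smul, map_smul, hlab i a' h1,
      map_smul, ha', smul_smul, Pi.add_apply, zt_pow_add, mul_comm]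

theorem IsCore.Zs_image (h : IsCore O U ρ τF τA PF sF PL PC cb K₁) (v l q : Q3) :
    ρ (lift q) '' Zs U ρ τA sF PL v l = Zs U ρ τA sF PL v (l + om v q) := by
  apply Set.Subset.antisymm
  · rintro _ ⟨x, hx, rfl⟩
    exact h.Zs_move hx q
  · intro y hy
    have h1 := h.Zs_move hy (-q)
    have h2 : om v (-q) = -om v q := by
      funext i
      simp only [om, Pi.neg_apply]
      ring
    rw [h2, add_neg_cancel_right] at h1
    refine ⟨_, h1, ?_⟩
    rw [← rho_mul, lift_mul, rho_mul, rho_cen h, add_neg_cancel]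
    have h3 : lift (0 : Q3) = 1 := rfl
    rw [h3, map_one]
    rfl

theorem IsCore.Zs_compact (h : IsCore O U ρ τF τA PF sF PL PC cb K₁) (v l : Q3) :
    IsCompact (Zs U ρ τA sF PL v l) := by
  refine h.cptU.of_isClosed_subset ?_ fun x hx => hx.1
  have hcl : IsClosed (closure U) := isClosed_closure
  have e : Zs U ρ τA sF PL v l = (closure U ∩ sF ⁻¹' {0}) ∩
      ((closure U ∩ {x | ρ (lift v) x = x}) ∩
        ⋂ i : Fin 3, ⋂ a : A, (closure U ∩
          (fun x => τA (lift v) (PL i x a) - zt ^ (l i).val • PL i x a) ⁻¹' {0})) := by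
    ext x
    simp only [Zs, mem_setOf_eq, mem_inter_iff, mem_preimage, mem_singleton_iff, mem_iInter]
    constructor
    · rintro ⟨hx, h0, hfix, hlab⟩
      refine ⟨⟨hx, h0⟩, ⟨hx, hfix⟩, fun i a => ⟨hx, ?_⟩⟩
      rw [hlab i _ ((h.bL i).idem x (h.clU hx) a), sub_self]
    · rintro ⟨⟨hx, h0⟩, ⟨-, hfix⟩, hlab⟩
      refine ⟨hx, h0, hfix, fun i a ha => ?_⟩
      have h1 := (hlab i a).2
      rw [ha] at h1
      exact sub_eq_zero.1 h1
  rw [e]
  refine ((h.sec.cont.mono h.clU).preimage_isClosed_of_isClosed hcl isClosed_singleton).inter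
    ((hcl.inter (isClosed_eq (ρ (lift v)).continuous continuous_id)).inter ?_)
  refine isClosed_iInter fun i => isClosed_iInter fun a => ?_
  refine ContinuousOn.preimage_isClosed_of_isClosed ?_ hcl isClosed_singleton
  have h1 : ContinuousOn (fun x => PL i x a) (closure U) :=
    ((h.bL i).cont.mono h.clU).clm_apply continuousOn_const
  exact ((τA (lift v)).continuous.comp_continuousOn h1).sub (h1.const_smul _)

theorem IsCore.Zs_sub (h : IsCore O U ρ τF τA PF sF PL PC cb K₁) (v l : Q3) :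
    Zs U ρ τA sF PL v l ⊆ U := by
  rintro x ⟨hx, h0, -⟩
  rw [closure_eq_self_union_frontier] at hx
  rcases hx with hx | hx
  · exact hx
  · exact absurd h0 (h.ne x hx)

end EMU
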