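import Pool.Agent.Lib.EMU.C.Delta
import Pool.Agent.Lib.EMU.B.NzDvd
import Pool.Agent.Lib.EMU.B.NzCube

/-!
# MP_9aab3b_gt, module C.NearC: the zeros near the singular ones

PROOF. For `a ∈ Lab` put `V_a = {x | dZ a x < r}`: open, `closure V_a ⊆ {dZ a ≤ r} ⊆ U` (`IsDelta.sub`, `r < 2δ/3 < δ`), compact
(`closure V_a ⊆ closure U`), `frontier V_a ⊆ {dZ a = r}`.
`near_three_dvd`: take `f', h'` from `shell`. On `frontier V_a` one has `(f x, k x) = (f' x, cb (h' x))`, so `Nz (f, k) V_a = Nz (f', cb h') V_a`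
(`Nz_congr`) `= 3 * Nz (f', h') V_a` (`Nz_cube`; `(f' x, h' x) ≠ 0` on the frontier).
`near_move`: `Γ = Multiplicative Q3`, `ρ'`, `τ` as in the header of `C/Far.lean`; `V_{(v, l + om v q)} = ρ (lift q) '' V_{(v, l)}` (`dZ_move`), `(f, k)` is equivariant and
has no zero on `frontier V_a` (`shell`: `(f' x, h' x) ≠ 0` implies `(f' x, cb (h' x)) ≠ 0`), so `Nz_image` applies (`IsCore.det_pos`).
-/

set_option autoImplicit false
set_option linter.unusedSectionVars false

open Set Metric Topology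

namespace EMU

variable {X F A : Type*} [NormedAddCommGroup X] [NormedSpace ℝ X] [FiniteDimensional ℝ X]
  [Nontrivial X] [NormedAddCommGroup F] [NormedSpace ℂ F] [FiniteDimensional ℂ F]
  [NormedAddCommGroup A] [NormedSpace ℂ A] [FiniteDimensional ℂ A]
  {O U : Set X} {ρ : Gp →* (X ≃ₗᵢ[ℝ] X)} {τF : Gp →* (F ≃L[ℂ] F)}
  {τA : Gp →* (A ≃L[ℂ] A)} {PF : X → F →L[ℂ] F} {sF : X → F} {PL : Fin 3 → X → A →L[ℂ] A}
  {PC : X → A →L[ℂ] A} {cb : A → A} {K₁ : ℕ}

/-- the open neighbourhood `dZ a < r` -/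
private lemma nearC_open (a : Q3 × Q3) (r : ℝ) : IsOpen {x | dZ U ρ τA sF PL a x < r} :=
  isOpen_lt (continuous_infDist_pt _) continuous_const

private lemma nearC_frontier (a : Q3 × Q3) (r : ℝ) :
    frontier {x | dZ U ρ τA sF PL a x < r} ⊆ {x | dZ U ρ τA sF PL a x = r} :=
  frontier_lt_subset_eq (continuous_infDist_pt _) continuous_const

private lemma nearC_closure (a : Q3 × Q3) (r : ℝ) :
    closure {x | dZ U ρ τA sF PL a x < r} ⊆ {x | dZ U ρ τA sF PL a x ≤ r} :=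
  closure_lt_subset_le (continuous_infDist_pt _) continuous_const

private lemma nearC_sub {δ r : ℝ} (hδ : IsDelta U ρ τA sF PL δ) (hr : r < 2 * δ / 3) {a : Q3 × Q3}
    (ha : a ∈ Lab U ρ τA sF PL) : closure {x | dZ U ρ τA sF PL a x < r} ⊆ closure U := by
  intro x hx
  have h1 := nearC_closure (ρ := ρ) (τA := τA) (sF := sF) (PL := PL) a r hx
  have h2 : dZ U ρ τA sF PL a x ≤ r := h1
  have h3 := hδ.pos
  exact subset_closure (hδ.sub a ha x (by linarith))

theorem IsCore.near_three_dvd (h : IsCore O U ρ τF τA PF sF PL PC cb K₁)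
    (e : X ≃L[ℝ] (Fin (K₁ + 1) → ℂ)) {δ r ε : ℝ} (hδ : IsDelta U ρ τA sF PL δ) {f : X → F}
    {k : X → A} (hg : IsGlued O U ρ τF τA PF sF PL PC cb δ r ε f k) {a : Q3 × Q3}
    (ha : a ∈ Lab U ρ τA sF PL) :
    (3 : ℤ) ∣ Nz e O (dsum PF PC) (fun x => (f x, k x)) {x | dZ U ρ τA sF PL a x < r} := by
  obtain ⟨f', h', hs, hsh⟩ := hg.shell a ha
  have hsub := nearC_sub hδ hg.r2 ha
  have hfr := nearC_frontier (U := U) (ρ := ρ) (τA := τA) (sF := sF) (PL := PL) a r
  have h1 : Nz e O (dsum PF PC) (fun x => (f x, k x)) {x | dZ U ρ τA sF PL a x < r} =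
      Nz e O (dsum PF PC) (fun x => (f' x, cb (h' x))) {x | dZ U ρ τA sF PL a x < r} := by
    refine Nz_congr e fun x hx => ?_
    obtain ⟨h2, h3, -⟩ := hsh x (hfr hx)
    rw [h2, h3]
  rw [h1, Nz_cube h.openO h.bF (h.bL 0) h.bC h.cube e hs (nearC_open a r)
    (h.cptU.of_isClosed_subset isClosed_closure hsub) (hsub.trans h.clU)
    (fun x hx => (hsh x (hfr hx)).2.2)]
  exact dvd_mul_right _ _

theorem IsCore.near_move (h : IsCore O U ρ τF τA PF sF PL PC cb K₁)
    (e : X ≃L[ℝ] (Fin (K₁ + 1) → ℂ)) {δ r ε : ℝ} (hδ : IsDelta U ρ τA sF PL δ) {f : X → F}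
    {k : X → A} (hg : IsGlued O U ρ τF τA PF sF PL PC cb δ r ε f k) {v l : Q3}
    (ha : (v, l) ∈ Lab U ρ τA sF PL) (q : Q3) :
    Nz e O (dsum PF PC) (fun x => (f x, k x)) {x | dZ U ρ τA sF PL (v, l + om v q) x < r} =
      Nz e O (dsum PF PC) (fun x => (f x, k x)) {x | dZ U ρ τA sF PL (v, l) x < r} := by
  have hb : IsBun O (dsum PF PC) (K₁ + 1) := isBun_dsum h.bF h.bC
  have hE : IsEqBun O (dsum PF PC) ρ (fun g => (τF g).prodCongr (τA g)) := by
    refine ⟨h.eF.inv, ?_, ?_⟩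
    · rintro g x hx ⟨v, w⟩
      exact Prod.ext (h.eF.eqv g x hx v) (h.eC.eqv g x hx w)
    · rintro g g' x hx ⟨v, w⟩ -
      exact Prod.ext (congrArg (fun t : F ≃L[ℂ] F => t v) (map_mul τF g g')).symm
        (congrArg (fun t : A ≃L[ℂ] A => t w) (map_mul τA g g')).symm
  have hse : IsEqSec O ρ (fun g => (τF g).prodCongr (τA g)) (fun x => (f x, k x)) := by
    intro g x hx
    have h1 : ρ g x = ρ (lift g.q) x := by
      conv_lhs => rw [eq_lift_mul_cen g]
      rw [map_mul, h.ρN]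
      rfl
    have hm := hg.sec.mem x hx
    have hm1 : PF x (f x) = f x := congrArg Prod.fst hm
    have hm2 : PC x (k x) = k x := congrArg Prod.snd hm
    have h2 : τF g (f x) = τF (lift g.q) (f x) := by
      conv_lhs => rw [eq_lift_mul_cen g]
      rw [map_mul]
      change τF (lift g.q) (τF (cen g.n) (f x)) = _
      rw [h.NF x hx _ hm1]
    have h3 : τA g (k x) = τA (lift g.q) (k x) := by
      conv_lhs => rw [eq_lift_mul_cen g]
      rw [map_mul]
      change τA (lift g.q) (τA (cen g.n) (k x)) = _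
      rw [h.NC hx hm2]
    obtain ⟨h4, h5⟩ := hg.eqv g.q x hx
    exact Prod.ext (by change f (ρ g x) = τF g (f x); rw [h1, h2, h4])
      (by change k (ρ g x) = τA g (k x); rw [h1, h3, h5])
  have hV : {x | dZ U ρ τA sF PL (v, l + om v q) x < r} =
      ρ (lift q) '' {x | dZ U ρ τA sF PL (v, l) x < r} := by
    ext y
    constructor
    · intro hy
      have hy' : dZ U ρ τA sF PL (v, l + om v q) y < r := hy
      refine ⟨(ρ (lift q)).symm y, ?_, (ρ (lift q)).apply_symm_apply y⟩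
      change dZ U ρ τA sF PL (v, l) ((ρ (lift q)).symm y) < r
      rw [← h.dZ_move v l q, (ρ (lift q)).apply_symm_apply]
      exact hy'
    · rintro ⟨x, hx, rfl⟩
      change dZ U ρ τA sF PL (v, l + om v q) (ρ (lift q) x) < r
      rw [h.dZ_move]
      exact hx
  have hsub := nearC_sub hδ hg.r2 ha
  have hfr := nearC_frontier (U := U) (ρ := ρ) (τA := τA) (sF := sF) (PL := PL) (v, l) r
  rw [hV]
  refine Nz_image h.openO hb e hE hg.sec hse (h.det_pos _) (nearC_open _ _)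
    (h.cptU.of_isClosed_subset isClosed_closure hsub) (hsub.trans h.clU) ?_
  intro x hx h0
  obtain ⟨f', h', -, hsh⟩ := hg.shell _ ha
  obtain ⟨h2, h3, h4⟩ := hsh x (hfr hx)
  apply h4
  have h5 : f x = 0 := congrArg Prod.fst h0
  have h6 : k x = 0 := congrArg Prod.snd h0
  have h7 : h' x = 0 := h.cube.inj _ (by rw [← h3, h6])
  rw [← h2, h5, h7]
  rfl

end EMU
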