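import Pool.Agent.Lib.EMU.C.Glue
import Pool.Agent.Lib.EMU.C.Far
import Pool.Agent.Lib.EMU.C.NearC
import Pool.Agent.Lib.EMU.B.NzSum

/-!
# MP_9aab3b_gt, module C.Main: the number of zeros is divisible by 27

PROOF. `δ` from `exists_delta`, `ε₀` from `exists_free`, `ε > 0` with `ε ≤ ε₀` and `ε < ‖sF x‖` for all `x ∈ frontier U` (compact; `ne`), `(r, f, k)` from
`exists_glued`. `Nz (sF, H) U = Nz (f, k) U` by `Nz_homotopy`: on `frontier U` the first component of `(sF, H) + t • ((f, k) - (sF, H))` is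
`sF + t • (f - sF) ≠ 0` as `‖f - sF‖ ≤ ε < ‖sF‖`. (`isSec_dsum`; `dsum PF PC` has rank `K₁ + 1`: `isBun_dsum`.)
`Nz_sum` for `V = U` and the sets `V_far = {x ∈ U | ∀ a ∈ Lab, r < dZ a x}` and `V_a = {x | dZ a x < r}`, `a ∈ Lab` (index type `Option (Q3 × Q3)`,
finite set `none` and `some a`, `a ∈ Lab`): they are open, contained in `U`, pairwise disjoint (`IsDelta.dis`); a point of `closure U` in none of
them is in `frontier U` (then `f x ≠ 0`) or satisfies `dZ a x = r` for some `a ∈ Lab` (then `(f x, k x) ≠ 0` by `shell` and `cb v = 0 → v = 0`):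
if `x ∈ U` is not in `V_far` then `dZ a x ≤ r` for some `a ∈ Lab`.
So `Nz (f, k) U = Nz (f, k) V_far + ∑ a ∈ Lab, Nz (f, k) V_a`; the first term is divisible by 27 (`far_dvd`). Put
`c (v, l) = Nz (f, k) V_{(v,l)}` if `(v, l) ∈ Lab`, `0` otherwise. For each representative `v` (`rep_ne_zero`) the function `l ↦ c (v, l)` is invariant under
`l ↦ l + om v q` (`near_move`, `lab_move` in both directions: `Lab` is invariant) and has values divisible by 3 (`near_three_dvd`): write `c = 3 c'`; `c'` is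
invariant too, so `9 ∣ ∑ l, c' (v, l)` (`nine_dvd_sum`) and `27 ∣ ∑ l, c (v, l)`. Sum over `v` (for `v` not a representative all terms are `0`).
-/

set_option autoImplicit false

open Set Metric Topology

namespace EMU

variable {X F A : Type*} [NormedAddCommGroup X] [NormedSpace ℝ X] [FiniteDimensional ℝ X]
  [Nontrivial X] [NormedAddCommGroup F] [NormedSpace ℂ F] [FiniteDimensional ℂ F]
  [NormedAddCommGroup A] [NormedSpace ℂ A] [FiniteDimensional ℂ A]
  {O U : Set X} {ρ : Gp →* (X ≃ₗᵢ[ℝ] X)} {τF : Gp →* (F ≃L[ℂ] F)}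
  {τA : Gp →* (A ≃L[ℂ] A)} {PF : X → F →L[ℂ] F} {sF : X → F} {PL : Fin 3 → X → A →L[ℂ] A}
  {PC : X → A →L[ℂ] A} {cb : A → A} {K₁ : ℕ}

omit [FiniteDimensional ℝ X] [Nontrivial X] [FiniteDimensional ℂ F] [FiniteDimensional ℂ A] in
private theorem main_eps (h : IsCore O U ρ τF τA PF sF PL PC cb K₁) {ε₀ : ℝ} (hε₀ : 0 < ε₀) :
    ∃ ε : ℝ, 0 < ε ∧ ε ≤ ε₀ ∧ ∀ x ∈ frontier U, ε < ‖sF x‖ := by
  rcases (frontier U).eq_empty_or_nonempty with hemp | hnon
  · refine ⟨ε₀, hε₀, le_rfl, fun x hx => ?_⟩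
    rw [hemp] at hx
    exact absurd hx (notMem_empty x)
  · have hfc : IsCompact (frontier U) :=
      h.cptU.of_isClosed_subset isClosed_frontier frontier_subset_closure
    have hfO : frontier U ⊆ O := frontier_subset_closure.trans h.clU
    obtain ⟨x₀, hx₀, hmin⟩ := hfc.exists_isMinOn hnon (h.sec.cont.mono hfO).norm
    have h1 : 0 < ‖sF x₀‖ := norm_pos_iff.2 (h.ne x₀ hx₀)
    refine ⟨min ε₀ (‖sF x₀‖ / 2), lt_min hε₀ (half_pos h1), min_le_left _ _, fun x hx => ?_⟩
    have h2 : ‖sF x₀‖ ≤ ‖sF x‖ := hmin hx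
    have h3 : min ε₀ (‖sF x₀‖ / 2) ≤ ‖sF x₀‖ / 2 := min_le_right _ _
    linarith

/-- the pieces of `U` -/
private def mainV (U : Set X) (ρ : Gp →* (X ≃ₗᵢ[ℝ] X)) (τA : Gp →* (A ≃L[ℂ] A)) (sF : X → F)
    (PL : Fin 3 → X → A →L[ℂ] A) (r : ℝ) : Option (Q3 × Q3) → Set X
  | none => {x | x ∈ U ∧ ∀ a ∈ Lab U ρ τA sF PL, r < dZ U ρ τA sF PL a x}
  | some a => {x | dZ U ρ τA sF PL a x < r}

open Classical in
private theorem main_sum (h : IsCore O U ρ τF τA PF sF PL PC cb K₁)
    (e : X ≃L[ℝ] (Fin (K₁ + 1) → ℂ)) {δ r ε : ℝ} (hδ : IsDelta U ρ τA sF PL δ)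
    (hε2 : ∀ x ∈ frontier U, ε < ‖sF x‖) {f : X → F} {k : X → A}
    (hg : IsGlued O U ρ τF τA PF sF PL PC cb δ r ε f k) :
    Nz e O (dsum PF PC) (fun x => (f x, k x)) U =
      Nz e O (dsum PF PC) (fun x => (f x, k x))
        {x | x ∈ U ∧ ∀ a ∈ Lab U ρ τA sF PL, r < dZ U ρ τA sF PL a x} +
      ∑ v : Q3, ∑ l : Q3, if (v, l) ∈ Lab U ρ τA sF PL then
        Nz e O (dsum PF PC) (fun x => (f x, k x)) {x | dZ U ρ τA sF PL (v, l) x < r} else 0 := by
  have hb : IsBun O (dsum PF PC) (K₁ + 1) := isBun_dsum h.bF h.bC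
  have hδ0 := hδ.pos
  have hr2 := hg.r2
  have key := Nz_sum h.openO hb e h.openU h.cptU h.clU hg.sec
    (Finset.insertNone (Finset.univ.filter fun a => a ∈ Lab U ρ τA sF PL))
    (mainV U ρ τA sF PL r) ?_ ?_ ?_ ?_
  · rw [key, Finset.sum_insertNone, Finset.sum_filter, Fintype.sum_prod_type]
    rfl
  · rintro (_ | a) ha
    · change IsOpen (U ∩ {x | ∀ a ∈ Lab U ρ τA sF PL, r < dZ U ρ τA sF PL a x})
      refine h.openU.inter ?_
      have h2 : {x | ∀ a ∈ Lab U ρ τA sF PL, r < dZ U ρ τA sF PL a x} =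
          ⋂ a ∈ Lab U ρ τA sF PL, {x | r < dZ U ρ τA sF PL a x} := by
        ext x
        simp
      rw [h2]
      exact (Set.toFinite _).isOpen_biInter fun a _ =>
        isOpen_lt continuous_const (continuous_infDist_pt _)
    · exact isOpen_lt (continuous_infDist_pt _) continuous_const
  · rintro (_ | a) ha
    · exact fun x hx => hx.1
    · intro x hx
      have ha' : a ∈ Lab U ρ τA sF PL := by simpa using ha
      have hx' : dZ U ρ τA sF PL a x < r := hx
      exact hδ.sub a ha' x (by linarith)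
  · rintro (_ | a) ha (_ | b) hb' hab
    · exact absurd rfl hab
    · have hb2 : b ∈ Lab U ρ τA sF PL := by simpa using hb'
      rw [Set.disjoint_left]
      intro x hx hx'
      exact lt_asymm (hx.2 b hb2) hx'
    · have ha2 : a ∈ Lab U ρ τA sF PL := by simpa using ha
      rw [Set.disjoint_left]
      intro x hx hx'
      exact lt_asymm (hx'.2 a ha2) hx
    · have ha2 : a ∈ Lab U ρ τA sF PL := by simpa using ha
      have hb2 : b ∈ Lab U ρ τA sF PL := by simpa using hb'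
      rw [Set.disjoint_left]
      intro x hx hx'
      have h3 : dZ U ρ τA sF PL a x < r := hx
      have h4 : dZ U ρ τA sF PL b x < r := hx'
      exact hab (congrArg some (hδ.dis a ha2 b hb2 x (by linarith) (by linarith)))
  · intro x hx hxn h0
    have hf0 : f x = 0 := congrArg Prod.fst h0
    have hk0 : k x = 0 := congrArg Prod.snd h0
    by_cases hxU : x ∈ U
    · have h5 : ¬ ∀ a ∈ Lab U ρ τA sF PL, r < dZ U ρ τA sF PL a x := fun hall =>
        hxn none (by simp) ⟨hxU, hall⟩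
      push Not at h5
      obtain ⟨a, ha, hax⟩ := h5
      have h6 : ¬ dZ U ρ τA sF PL a x < r := fun hlt =>
        hxn (some a) (by simpa using ha) hlt
      have h7 : dZ U ρ τA sF PL a x = r := le_antisymm hax (not_lt.1 h6)
      obtain ⟨f', h', -, hsh⟩ := hg.shell a ha
      obtain ⟨g1, g2, g3⟩ := hsh x h7
      have g4 : h' x = 0 := h.cube.inj _ (by rw [← g2, hk0])
      apply g3
      rw [← g1, hf0, g4]
      rfl
    · have hfr : x ∈ frontier U := ⟨hx, by rw [h.openU.interior_eq]; exact hxU⟩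
      have h5 := hg.close x (h.clU hx)
      have h6 := hε2 x hfr
      rw [hf0, zero_sub, norm_neg] at h5
      linarith

private theorem main_row {v : Q3} (hv : v ≠ 0) (c : Q3 → ℤ) (hc : ∀ l, (3 : ℤ) ∣ c l)
    (hinv : ∀ l q, c (l + om v q) = c l) : (27 : ℤ) ∣ ∑ l, c l := by
  choose c' hc' using hc
  have h1 : (9 : ℤ) ∣ ∑ l, c' l := nine_dvd_sum hv c' fun l q => by
    have h2 := hinv l q
    rw [hc', hc' l] at h2
    exact mul_left_cancel₀ (by norm_num) h2
  have h3 : ∑ l, c l = 3 * ∑ l, c' l := by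
    rw [Finset.mul_sum]
    exact Finset.sum_congr rfl fun l _ => hc' l
  rw [h3]
  obtain ⟨m, hm⟩ := h1
  exact ⟨m, by rw [hm]; ring⟩

private theorem om_neg_right (v q : Q3) : om v (-q) = -om v q := by
  have h1 := om_add_right v q (-q)
  rw [add_neg_cancel] at h1
  have h2 : om v 0 = 0 := by
    funext i
    simp [om]
  rw [h2] at h1
  exact (neg_eq_of_add_eq_zero_right h1.symm).symm

theorem IsCore.dvd (h : IsCore O U ρ τF τA PF sF PL PC cb K₁)
    (e : X ≃L[ℝ] (Fin (K₁ + 1) → ℂ)) {H : X → A} (hH : IsSec O PC H) :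
    (27 : ℤ) ∣ Nz e O (dsum PF PC) (fun x => (sF x, H x)) U := by
  classical
  obtain ⟨δ, hδ⟩ := h.exists_delta
  obtain ⟨ε₀, hε₀, hfree⟩ := h.exists_free hδ
  obtain ⟨ε, hε, hεε₀, hε2⟩ := main_eps h hε₀
  obtain ⟨r, f, k, hg⟩ := h.exists_glued e hδ hε
  have hb : IsBun O (dsum PF PC) (K₁ + 1) := isBun_dsum h.bF h.bC
  have hs : IsSec O (dsum PF PC) (fun x => (sF x, H x)) := isSec_dsum h.sec hH
  have h1 : Nz e O (dsum PF PC) (fun x => (sF x, H x)) U =
      Nz e O (dsum PF PC) (fun x => (f x, k x)) U := by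
    refine Nz_homotopy h.openO hb e h.openU h.cptU h.clU hs hg.sec fun x hx t ht h0 => ?_
    have h2 : sF x + t • (f x - sF x) = 0 := congrArg Prod.fst h0
    have h3 := hg.close x (h.clU (frontier_subset_closure hx))
    have h4 := hε2 x hx
    have h5 := congrArg norm (eq_neg_of_add_eq_zero_left h2)
    rw [norm_neg] at h5
    rw [norm_smul, Real.norm_of_nonneg ht.1] at h5
    have h6 : t * ‖f x - sF x‖ ≤ 1 * ‖f x - sF x‖ :=
      mul_le_mul_of_nonneg_right ht.2 (norm_nonneg _)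
    linarith
  rw [h1, main_sum h e hδ hε2 hg]
  refine dvd_add (h.far_dvd e hδ hfree hεε₀ hε2 hg) (Finset.dvd_sum fun v _ => ?_)
  by_cases hv : IsRep v
  · refine main_row (rep_ne_zero hv) _ (fun l => ?_) (fun l q => ?_)
    · split_ifs with hl
      · exact h.near_three_dvd e hδ hg hl
      · exact dvd_zero _
    · by_cases hl : (v, l) ∈ Lab U ρ τA sF PL
      · have hl' := h.lab_move hl q
        rw [if_pos hl, if_pos hl']
        exact h.near_move e hδ hg hl q
      · have hl' : (v, l + om v q) ∉ Lab U ρ τA sF PL := fun h2 => by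
          have h3 := h.lab_move h2 (-q)
          rw [om_neg_right, add_neg_cancel_right] at h3
          exact hl h3
        rw [if_neg hl, if_neg hl']
  · rw [Finset.sum_eq_zero]
    · exact dvd_zero _
    · intro l _
      rw [if_neg]
      exact fun h2 => hv h2.1

end EMU
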