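import Pool.Agent.Lib.EMU.C.Delta
import Pool.Agent.Lib.EMU.B.CubeInd
import Pool.Agent.Lib.EMU.B.Ex

/-!
# MP_9aab3b_gt, module C.Near: a perturbation near one set of singular zeros

PROOF. Let `a = (v, l) ∈ Lab`, `g = lift v`, `Γ = Subgroup.zpowers g`, a group of order 3 (`g ^ 3 = 1`, `g ≠ 1` as `v ≠ 0`); its non trivial elements
generate it. It acts by `ρ` and by `τ γ = (τF γ).prod (τA γ)` on `F × A`: `IsEqBun O (dsum PF (PL 0)) (ρ.comp Γ.subtype) (fun γ => (τF γ).prodCongr (τA γ))`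
(`eF`, `eL 0`; `mul` because `τF`, `τA` are homomorphisms; `ContinuousLinearEquiv.prodCongr`). The section `(sF, 0)` is equivariant.
`C = {x ∈ closure U | δ / 3 ≤ dZ a x ≤ 2 δ / 3, ‖sF x‖ ≤ ε₁}` is compact (`dZ` is continuous, `sF` is continuous on `closure U ⊆ O`).
It is free for a small `ε₁ > 0`: the set of the `x ∈ closure U` with `δ / 3 ≤ dZ a x ≤ 2 δ / 3`, `ρ g x = x` is compact and `sF ≠ 0` on it: if `sF x = 0` and
`ρ (lift v) x = x` then `x ∈ Zs b` with `b ∈ Lab` (`Zs_cover`, `q = v ≠ 0`), `dZ b x = 0 ≤ δ` and `dZ a x ≤ δ` so `a = b` (`IsDelta.dis`), and `dZ a x = 0 < δ / 3`,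
contradiction. So `‖sF‖ > ε₁` on it for some `ε₁ > 0` (if it is empty, `ε₁ = 1`). If `ρ γ x = x` with `γ ≠ 1` in `Γ` then `ρ g x = x` (`g` is a power of `γ`).
Apply `exists_finite_equivariant` with `min ε ε₁` (sup norm on `F × A`: `‖(u, w)‖ ≤ ε` gives both bounds). The zeros of `(f', h')` with `x ∈ closure U` and
`δ / 3 ≤ dZ a x ≤ 2 δ / 3` satisfy `‖sF x‖ ≤ ε₁` (as `f' x = 0`), so they are in `C`.
The equivariance for `γ = g` is the claimed one.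
-/

set_option autoImplicit false

open Set Metric Topology

namespace EMU

variable {X F A : Type*} [NormedAddCommGroup X] [NormedSpace ℝ X] [FiniteDimensional ℝ X]
  [Nontrivial X] [NormedAddCommGroup F] [NormedSpace ℂ F] [FiniteDimensional ℂ F]
  [NormedAddCommGroup A] [NormedSpace ℂ A] [FiniteDimensional ℂ A]
  {O U : Set X} {ρ : Gp →* (X ≃ₗᵢ[ℝ] X)} {τF : Gp →* (F ≃L[ℂ] F)}
  {τA : Gp →* (A ≃L[ℂ] A)} {PF : X → F →L[ℂ] F} {sF : X → F} {PL : Fin 3 → X → A →L[ℂ] A}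
  {PC : X → A →L[ℂ] A} {cb : A → A} {K₁ : ℕ}

private lemma near_pow {γ g : Gp} (hγ : γ ∈ Subgroup.zpowers g) (h1 : γ ≠ 1) :
    g = γ ∨ g = γ * γ := by
  obtain ⟨k, rfl⟩ := Subgroup.mem_zpowers_iff.1 hγ
  have h3 : g ^ (3 : ℤ) = 1 := by exact_mod_cast pow_three g
  have hk : g ^ k = g ^ (k % 3) := by
    conv_lhs => rw [← Int.emod_add_mul_ediv k 3]
    rw [zpow_add, zpow_mul, h3, one_zpow, mul_one]
  have h0 : k % 3 = 0 ∨ k % 3 = 1 ∨ k % 3 = 2 := by omega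
  rcases h0 with h0 | h0 | h0
  · exact absurd (by rw [hk, h0, zpow_zero]) h1
  · left
    rw [hk, h0, zpow_one]
  · right
    rw [hk, h0, ← zpow_add]
    have h4 : (2 : ℤ) + 2 = 3 + 1 := by norm_num
    rw [h4, zpow_add, h3, one_mul, zpow_one]

theorem IsCore.exists_near (h : IsCore O U ρ τF τA PF sF PL PC cb K₁)
    (e : X ≃L[ℝ] (Fin (K₁ + 1) → ℂ)) {δ : ℝ} (hδ : IsDelta U ρ τA sF PL δ) {a : Q3 × Q3}
    (ha : a ∈ Lab U ρ τA sF PL) {ε : ℝ} (hε : 0 < ε) :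
    ∃ (f' : X → F) (h' : X → A), IsSec O (dsum PF (PL 0)) (fun x => (f' x, h' x)) ∧
      (∀ x ∈ O, f' (ρ (lift a.1) x) = τF (lift a.1) (f' x) ∧
        h' (ρ (lift a.1) x) = τA (lift a.1) (h' x)) ∧
      (∀ x ∈ O, ‖f' x - sF x‖ ≤ ε ∧ ‖h' x‖ ≤ ε) ∧
      {x | x ∈ closure U ∧ δ / 3 ≤ dZ U ρ τA sF PL a x ∧ dZ U ρ τA sF PL a x ≤ 2 * δ / 3 ∧
        f' x = 0 ∧ h' x = 0}.Finite := by
  classical
  have hv : a.1 ≠ 0 := rep_ne_zero ha.1
  have hδ0 := hδ.pos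
  have hcdZ : Continuous (dZ U ρ τA sF PL a) := continuous_infDist_pt _
  have hcs : ContinuousOn sF (closure U) := h.sec.cont.mono h.clU
  let D : Set X := {x | x ∈ closure U ∧ δ / 3 ≤ dZ U ρ τA sF PL a x ∧
    dZ U ρ τA sF PL a x ≤ 2 * δ / 3 ∧ ρ (lift a.1) x = x}
  have hD : IsCompact D := by
    refine h.cptU.of_isClosed_subset ?_ (fun x hx => hx.1)
    exact isClosed_closure.inter ((isClosed_le continuous_const hcdZ).inter
      ((isClosed_le hcdZ continuous_const).inter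
        (isClosed_eq (ρ (lift a.1)).continuous continuous_id)))
  have hDne : ∀ x ∈ D, sF x ≠ 0 := by
    rintro x ⟨hxU, hx1, hx2, hx3⟩ h0
    obtain ⟨b, hb, hxb⟩ := h.Zs_cover hxU h0 hv hx3
    have h1 : dZ U ρ τA sF PL b x = 0 := infDist_zero_of_mem hxb
    have hab : a = b := hδ.dis a ha b hb x (by linarith) (by linarith)
    rw [← hab] at h1
    linarith
  obtain ⟨ε₁, hε₁, hDε⟩ : ∃ ε₁ : ℝ, 0 < ε₁ ∧ ∀ x ∈ D, ε₁ < ‖sF x‖ := by
    by_cases hDn : D.Nonempty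
    · obtain ⟨x₀, hx₀, hmin⟩ := hD.exists_isMinOn hDn (hcs.mono (fun x hx => hx.1)).norm
      have h0 : 0 < ‖sF x₀‖ := norm_pos_iff.2 (hDne x₀ hx₀)
      refine ⟨‖sF x₀‖ / 2, half_pos h0, fun x hx => ?_⟩
      have h2 : ‖sF x₀‖ ≤ ‖sF x‖ := hmin hx
      linarith
    · exact ⟨1, one_pos, fun x hx => absurd ⟨x, hx⟩ hDn⟩
  have hb : IsBun O (dsum PF (PL 0)) (K₁ + 1) := isBun_dsum h.bF (h.bL 0)
  have hE : IsEqBun O (dsum PF (PL 0)) (ρ.comp (Subgroup.zpowers (lift a.1)).subtype)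
      (fun γ => (τF γ).prodCongr (τA γ)) := by
    refine ⟨fun γ => h.eF.inv γ, ?_, ?_⟩
    · rintro γ x hx ⟨v, w⟩
      exact Prod.ext (h.eF.eqv γ x hx v) ((h.eL 0).eqv γ x hx w)
    · rintro γ γ' x hx ⟨v, w⟩ -
      exact Prod.ext (congrArg (fun t : F ≃L[ℂ] F => t v) (map_mul τF (γ : Gp) γ')).symm
        (congrArg (fun t : A ≃L[ℂ] A => t w) (map_mul τA (γ : Gp) γ')).symm
  have hs : IsSec O (dsum PF (PL 0)) (fun x => (sF x, (0 : A))) :=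
    isSec_dsum h.sec ⟨continuousOn_const, fun x _ => map_zero _⟩
  have hse : IsEqSec O (ρ.comp (Subgroup.zpowers (lift a.1)).subtype)
      (fun γ => (τF γ).prodCongr (τA γ)) (fun x => (sF x, (0 : A))) := by
    intro γ x hx
    exact Prod.ext (h.secE γ x hx) (map_zero (τA (γ : Gp))).symm
  let C : Set X := {x | x ∈ closure U ∧ δ / 3 ≤ dZ U ρ τA sF PL a x ∧
    dZ U ρ τA sF PL a x ≤ 2 * δ / 3 ∧ ‖sF x‖ ≤ ε₁}
  have hC : IsCompact C := by
    refine h.cptU.of_isClosed_subset ?_ (fun x hx => hx.1)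
    have h1 : IsClosed (closure U ∩ (fun x => ‖sF x‖) ⁻¹' Iic ε₁) :=
      hcs.norm.preimage_isClosed_of_isClosed isClosed_closure isClosed_Iic
    have h2 := h1.inter ((isClosed_le continuous_const hcdZ : IsClosed {x | δ / 3 ≤
      dZ U ρ τA sF PL a x}).inter (isClosed_le hcdZ continuous_const : IsClosed {x |
      dZ U ρ τA sF PL a x ≤ 2 * δ / 3}))
    convert h2 using 1
    ext x
    constructor
    · rintro ⟨h3, h4, h5, h6⟩
      exact ⟨⟨h3, h6⟩, h4, h5⟩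
    · rintro ⟨⟨h3, h6⟩, h4, h5⟩
      exact ⟨h3, h4, h5, h6⟩
  have hfree : ∀ x ∈ C, ∀ γ, γ ≠ 1 →
      (ρ.comp (Subgroup.zpowers (lift a.1)).subtype) γ x ≠ x := by
    rintro x ⟨hxU, hx1, hx2, hx3⟩ γ hγ hfix
    have hfix' : ρ (γ : Gp) x = x := hfix
    have hgx : ρ (lift a.1) x = x := by
      rcases near_pow γ.2 (fun h1 => hγ (Subtype.ext h1)) with h1 | h1
      · rw [h1, hfix']
      · rw [h1, map_mul]
        change ρ (γ : Gp) (ρ (γ : Gp) x) = x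
        rw [hfix', hfix']
    have h4 := hDε x ⟨hxU, hx1, hx2, hgx⟩
    linarith
  obtain ⟨s', hs', hse', hd, hfin⟩ := exists_finite_equivariant h.openO hb e hE hs hse hC
    (fun x hx => h.clU hx.1) hfree (lt_min hε hε₁)
  have hd' : ∀ x ∈ O, ‖(s' x).1 - sF x‖ ≤ min ε ε₁ ∧ ‖(s' x).2‖ ≤ min ε ε₁ := by
    intro x hx
    have h1 := hd x hx
    rw [Prod.norm_def] at h1
    obtain ⟨h2, h3⟩ := max_le_iff.1 h1
    refine ⟨h2, ?_⟩
    have h4 : ‖(s' x).2 - 0‖ ≤ min ε ε₁ := h3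
    rwa [sub_zero] at h4
  refine ⟨fun x => (s' x).1, fun x => (s' x).2, hs', ?_, ?_, ?_⟩
  · intro x hx
    have h1 := hse' ⟨lift a.1, Subgroup.mem_zpowers _⟩ x hx
    exact ⟨congrArg Prod.fst h1, congrArg Prod.snd h1⟩
  · intro x hx
    obtain ⟨h1, h2⟩ := hd' x hx
    exact ⟨h1.trans (min_le_left _ _), h2.trans (min_le_left _ _)⟩
  · refine hfin.subset ?_
    rintro x ⟨hxU, hx1, hx2, hx3, hx4⟩
    refine ⟨⟨hxU, hx1, hx2, ?_⟩, Prod.ext hx3 hx4⟩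
    obtain ⟨h1, -⟩ := hd' x (h.clU hxU)
    have hx3' : (s' x).1 = 0 := hx3
    rw [hx3', zero_sub, norm_neg] at h1
    exact h1.trans (min_le_right _ _)

end EMU
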